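import Pool.Agent.Lib.GSP.WheelDef

/-!
# Twists of free groups
-/

namespace Pool.GSQ

open Function Pool.GSP Monoid

/-- first letter -/
abbrev cα : Sg F2 := Coprod.inl (FreeGroup.of true)
/-- second letter -/
abbrev cβ : Sg F2 := Coprod.inl (FreeGroup.of false)
/-- third letter -/
abbrev cξ : Sg F2 := xS

section

variable {H : Type*} [Group H]

/-- homomorphisms of the free group of rank two -/
def f2 (α β : H) : F2 →* H := FreeGroup.lift (fun b => bif b then α else β)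

@[simp] theorem f2_true (α β : H) : f2 α β (FreeGroup.of true) = α := by simp [f2]

@[simp] theorem f2_false (α β : H) : f2 α β (FreeGroup.of false) = β := by simp [f2]

theorem f2_ext {f g : F2 →* H} (h1 : f (FreeGroup.of true) = g (FreeGroup.of true))
    (h2 : f (FreeGroup.of false) = g (FreeGroup.of false)) : f = g := by
  refine FreeGroup.ext_hom _ _ ?_
  rintro (_ | _)
  · exact h2
  · exact h1

/-- homomorphisms of the free group of rank three -/
def f3 (α β ξ : H) : Sg F2 →* H := sgLift (f2 α β) ξ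

@[simp] theorem f3_α (α β ξ : H) : f3 α β ξ cα = α := by simp [f3]

@[simp] theorem f3_β (α β ξ : H) : f3 α β ξ cβ = β := by simp [f3]

@[simp] theorem f3_ξ (α β ξ : H) : f3 α β ξ cξ = ξ := by simp [f3]

theorem f3_ext {f g : Sg F2 →* H} (h1 : f cα = g cα) (h2 : f cβ = g cβ) (h3 : f cξ = g cξ) :
    f = g := by
  refine sg_ext (fun a => ?_) h3
  exact DFunLike.congr_fun (f2_ext (f := f.comp Coprod.inl) (g := g.comp Coprod.inl) h1 h2) a

end

/-- the curve `ξ⁻¹ β α β⁻¹` -/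
def ee {H : Type*} [Group H] (α β ξ : H) : H := ξ⁻¹ * β * α * β⁻¹

/-- twist along `ξ⁻¹ β α β⁻¹` -/
def TT (k : ℤ) : Sg F2 →* Sg F2 :=
  f3 (ee cα cβ cξ ^ k * cα * ee cα cβ cξ ^ (-k)) (cβ * ee cα cβ cξ ^ (-k)) cξ

/-- twist along `β` -/
def DD (l : ℤ) : Sg F2 →* Sg F2 := f3 (cα * cβ ^ l) cβ cξ

/-- twist along `α` -/
def EA (m : ℤ) : Sg F2 →* Sg F2 := f3 cα (cβ * cα ^ m) cξ

theorem TT_α (k : ℤ) : TT k cα = ee cα cβ cξ ^ k * cα * ee cα cβ cξ ^ (-k) := f3_α _ _ _
theorem TT_β (k : ℤ) : TT k cβ = cβ * ee cα cβ cξ ^ (-k) := f3_β _ _ _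
theorem TT_ξ (k : ℤ) : TT k cξ = cξ := f3_ξ _ _ _
theorem DD_α (k : ℤ) : DD k cα = cα * cβ ^ k := f3_α _ _ _
theorem DD_β (k : ℤ) : DD k cβ = cβ := f3_β _ _ _
theorem DD_ξ (k : ℤ) : DD k cξ = cξ := f3_ξ _ _ _
theorem EA_α (k : ℤ) : EA k cα = cα := f3_α _ _ _
theorem EA_β (k : ℤ) : EA k cβ = cβ * cα ^ k := f3_β _ _ _
theorem EA_ξ (k : ℤ) : EA k cξ = cξ := f3_ξ _ _ _

theorem TT_ee (k : ℤ) : TT k (ee cα cβ cξ) = ee cα cβ cξ := by
  nth_rewrite 1 [ee]
  rw [map_mul, map_mul, map_mul, map_inv, map_inv, TT_α, TT_β, TT_ξ, zpow_neg]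
  generalize hw : ee cα cβ cξ ^ k = w
  have h4 : cξ⁻¹ * (cβ * w⁻¹) * (w * cα * w⁻¹) * (cβ * w⁻¹)⁻¹ = cξ⁻¹ * cβ * cα * cβ⁻¹ := by group
  rw [h4]
  rfl

theorem TT_comp (k : ℤ) : (TT k).comp (TT (-k)) = MonoidHom.id _ := by
  refine f3_ext ?_ ?_ ?_
  · rw [MonoidHom.comp_apply, TT_α, map_mul, map_mul, map_zpow, map_zpow, TT_ee, TT_α]
    simp only [neg_neg, MonoidHom.id_apply, zpow_neg]
    group
  · rw [MonoidHom.comp_apply, TT_β, map_mul, map_zpow, TT_ee, TT_β]
    simp only [neg_neg, MonoidHom.id_apply, zpow_neg]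
    group
  · rw [MonoidHom.comp_apply, TT_ξ, TT_ξ]
    rfl

theorem DD_comp (k : ℤ) : (DD k).comp (DD (-k)) = MonoidHom.id _ := by
  refine f3_ext ?_ ?_ ?_
  · rw [MonoidHom.comp_apply, DD_α, map_mul, map_zpow, DD_α, DD_β]
    simp only [MonoidHom.id_apply, zpow_neg]
    group
  · rw [MonoidHom.comp_apply, DD_β, DD_β]
    rfl
  · rw [MonoidHom.comp_apply, DD_ξ, DD_ξ]
    rfl

theorem EA_comp (k : ℤ) : (EA k).comp (EA (-k)) = MonoidHom.id _ := by
  refine f3_ext ?_ ?_ ?_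
  · rw [MonoidHom.comp_apply, EA_α, EA_α]
    rfl
  · rw [MonoidHom.comp_apply, EA_β, map_mul, map_zpow, EA_α, EA_β]
    simp only [MonoidHom.id_apply, zpow_neg]
    group
  · rw [MonoidHom.comp_apply, EA_ξ, EA_ξ]
    rfl

/-- twist along `ξ⁻¹ β α β⁻¹` as automorphism -/
def aT (k : ℤ) : MulAut (Sg F2) := MonoidHom.toMulEquiv (TT k) (TT (-k))
  (by have := TT_comp (-k); rwa [neg_neg] at this) (TT_comp k)

/-- twist along `β` as automorphism -/
def aD (k : ℤ) : MulAut (Sg F2) := MonoidHom.toMulEquiv (DD k) (DD (-k))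
  (by have := DD_comp (-k); rwa [neg_neg] at this) (DD_comp k)

/-- twist along `α` as automorphism -/
def aE (k : ℤ) : MulAut (Sg F2) := MonoidHom.toMulEquiv (EA k) (EA (-k))
  (by have := EA_comp (-k); rwa [neg_neg] at this) (EA_comp k)

theorem aT_apply (k : ℤ) (z : Sg F2) : aT k z = TT k z := rfl
theorem aD_apply (k : ℤ) (z : Sg F2) : aD k z = DD k z := rfl
theorem aE_apply (k : ℤ) (z : Sg F2) : aE k z = EA k z := rfl

/-- the other boundary letter `[α, β] ξ` -/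
def bd : Sg F2 := cα * cβ * cα⁻¹ * cβ⁻¹ * cξ

theorem bd_eq : bd = cα * (ee cα cβ cξ)⁻¹ := by
  rw [bd, ee]
  group

theorem TT_bd (k : ℤ) : TT k bd * ee cα cβ cξ ^ k = ee cα cβ cξ ^ k * bd := by
  rw [bd_eq, map_mul, map_inv, TT_ee, TT_α]
  group

theorem DD_bd (k : ℤ) : DD k bd = bd := by
  rw [bd]
  simp only [map_mul, map_inv, DD_α, DD_β, DD_ξ]
  group

theorem EA_bd (k : ℤ) : EA k bd = bd := by
  rw [bd]
  simp only [map_mul, map_inv, EA_α, EA_β, EA_ξ]
  group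

/-! ## Rank two -/

/-- twist along the second letter -/
def D2 (l : ℤ) : F2 →* F2 := f2 (FreeGroup.of true * FreeGroup.of false ^ l) (FreeGroup.of false)

/-- twist along the first letter -/
def E2 (m : ℤ) : F2 →* F2 := f2 (FreeGroup.of true) (FreeGroup.of false * FreeGroup.of true ^ m)

theorem D2_comp (k : ℤ) : (D2 k).comp (D2 (-k)) = MonoidHom.id _ := by
  refine f2_ext ?_ ?_
  · simp [D2]
  · simp [D2]

theorem E2_comp (k : ℤ) : (E2 k).comp (E2 (-k)) = MonoidHom.id _ := by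
  refine f2_ext ?_ ?_
  · simp [E2]
  · simp [E2]

/-- twist along the second letter -/
def aD2 (k : ℤ) : MulAut F2 := MonoidHom.toMulEquiv (D2 k) (D2 (-k))
  (by have := D2_comp (-k); rwa [neg_neg] at this) (D2_comp k)

/-- twist along the first letter -/
def aE2 (k : ℤ) : MulAut F2 := MonoidHom.toMulEquiv (E2 k) (E2 (-k))
  (by have := E2_comp (-k); rwa [neg_neg] at this) (E2_comp k)

theorem aD2_apply (k : ℤ) (z : F2) : aD2 k z = D2 k z := rfl
theorem aE2_apply (k : ℤ) (z : F2) : aE2 k z = E2 k z := rfl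

theorem D2_cm (k : ℤ) (g : F2) (hg : g = FreeGroup.of true * FreeGroup.of false *
    (FreeGroup.of true)⁻¹ * (FreeGroup.of false)⁻¹) : D2 k g = g := by
  subst hg
  simp only [D2, map_mul, map_inv, f2_true, f2_false]
  group

theorem E2_cm (k : ℤ) (g : F2) (hg : g = FreeGroup.of true * FreeGroup.of false *
    (FreeGroup.of true)⁻¹ * (FreeGroup.of false)⁻¹) : E2 k g = g := by
  subst hg
  simp only [E2, map_mul, map_inv, f2_true, f2_false]
  group

/-! ## Shears -/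

section

variable {Z : Type*} [Group Z]

/-- the automorphism `(z, n) ↦ (ψ z, η z * n)` -/
def shear (ψ : MulAut Z) (η : Z →* Zm) : Z × Zm ≃* Z × Zm where
  toFun p := (ψ p.1, η p.1 * p.2)
  invFun p := (ψ.symm p.1, (η (ψ.symm p.1))⁻¹ * p.2)
  left_inv p := by simp
  right_inv p := by simp
  map_mul' p q := by
    refine Prod.ext ?_ ?_
    · simp
    · simp only [Prod.snd_mul, Prod.fst_mul, map_mul]
      exact mul_mul_mul_comm _ _ _ _

theorem shear_apply (ψ : MulAut Z) (η : Z →* Zm) (p : Z × Zm) :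
    shear ψ η p = (ψ p.1, η p.1 * p.2) := rfl

end

section

variable {A : Type} [Group A]

theorem extA_one (n : Zm) (z : Sg A) : extA (pw (1 : MulAut A)) n z = z := by
  have h : (extA (pw (1 : MulAut A)) n).toMonoidHom = MonoidHom.id (Sg A) := by
    refine sg_ext (fun a => ?_) ?_
    · change extA (pw (1 : MulAut A)) n (Coprod.inl a) = _
      rw [extA_inl, pw_apply, one_zpow]
      rfl
    · exact extA_x _ _
  exact DFunLike.congr_fun h z

/-- the wall group with trivial action -/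
def nnEquiv : NN (pw (1 : MulAut A)) ≃* Sg A × Zm where
  toFun p := (p.left, p.right)
  invFun p := ⟨p.1, p.2⟩
  left_inv _ := rfl
  right_inv _ := rfl
  map_mul' p q := by
    refine Prod.ext ?_ rfl
    rw [SemidirectProduct.mul_left, extA_one]
    rfl

theorem nnEquiv_apply (p : NN (pw (1 : MulAut A))) : nnEquiv p = (p.left, p.right) := rfl

theorem nnEquiv_symm_apply (p : Sg A × Zm) : (nnEquiv (A := A)).symm p = ⟨p.1, p.2⟩ := rfl

end

end Pool.GSQ
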