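import Pool.Agent.Lib.GSQ.ExHom

/-!
# Homomorphisms out of the pinwheel group of an explicit group
-/

namespace Pool.GSQ

open Function Pool.GSP Monoid

/-- homomorphisms out of a pinwheel group agree if they agree on the bricks and on `t` -/
theorem pin_ext {A B G0 G1 : Type} [Group A] [Group B] [Group G0] [Group G1]
    {X : Wheel A B G0 G1} {H : Type*} [Group H] {f g : X.Pin →* H}
    (h0 : ∀ z, f (X.of0 z) = g (X.of0 z)) (h1 : ∀ z, f (X.of1 z) = g (X.of1 z))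
    (ht : f X.t = g X.t) : f = g := by
  refine QuotientGroup.monoidHom_ext _ ?_
  refine sg_ext (fun z => ?_) ht
  have h : ((f.comp X.qt).comp Coprod.inl : Coprod G0 G1 →* H) = (g.comp X.qt).comp Coprod.inl :=
    Coprod.hom_ext (MonoidHom.ext fun z => h0 z) (MonoidHom.ext fun z => h1 z)
  exact DFunLike.congr_fun h z

/-- the homomorphism `z ↦ i (φ z) * b ^ θ z` -/
def rhom {Z G : Type*} [Group Z] [Group G] (i : Z →* G) (b : G) (hb : ∀ z, b * i z = i z * b)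
    (φ : Z →* Z) (θ : Z →* Zm) : Z →* G where
  toFun z := i (φ z) * pw b (θ z)
  map_one' := by simp
  map_mul' z w := by
    have h : pw b (θ z) * i (φ w) = i (φ w) * pw b (θ z) := pw_comm (hb _) _
    calc i (φ (z * w)) * pw b (θ (z * w))
        = i (φ z) * (i (φ w) * pw b (θ z)) * pw b (θ w) := by
          simp only [map_mul]; group
      _ = i (φ z) * pw b (θ z) * (i (φ w) * pw b (θ w)) := by rw [← h]; group

theorem rhom_apply {Z G : Type*} [Group Z] [Group G] (i : Z →* G) (b : G)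
    (hb : ∀ z, b * i z = i z * b) (φ : Z →* Z) (θ : Z →* Zm) (z : Z) :
    rhom i b hb φ θ z = i (φ z) * pw b (θ z) := rfl

theorem f2_ext' {H : Type*} [Group H] {f g : F2 →* H} (k : ℤ) (h1 : f fk = g fk)
    (h2 : f (fr * fk ^ k) = g (fr * fk ^ k)) : f = g := by
  refine f2_ext h1 ?_
  rw [map_mul, map_mul, map_zpow, map_zpow, h1] at h2
  exact mul_right_cancel h2

theorem f3_ext' {H : Type*} [Group H] {f g : Sg F2 →* H} (k : ℤ) (h1 : f cβ = g cβ)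
    (h2 : f (cα * cβ ^ k) = g (cα * cβ ^ k)) (h3 : f cξ = g cξ) : f = g := by
  refine f3_ext ?_ h1 h3
  rw [map_mul, map_mul, map_zpow, map_zpow, h1] at h2
  exact mul_right_cancel h2

theorem of_cm {G : Type*} [Group G] {g h : G} (h1 : cm g h = 1) : g * h = h * g := by
  rw [cm, mul_inv_eq_one, mul_inv_eq_iff_eq_mul] at h1
  exact h1

section

variable {G : Type*} [Group G] {a b y e : G}

/-- conjugation with `W`, first letter -/
theorem conjW1 (hya : Commute y a) (hyb : Commute y b) (hye : Commute y e) (p0 q0 p1 q1 : ℤ) :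
    (e ^ p0 * y ^ q0)⁻¹ * (e ^ p0 * a * e ^ (-p0) * (b * e ^ (-p0)) ^ p1 * y ^ (q1 - q0 * p1)) *
      (e ^ p0 * y ^ q0) = a * ((e ^ p0 * y ^ q0)⁻¹ * b) ^ p1 * y ^ q1 := by
  have h2 : ((e ^ p0 * y ^ q0)⁻¹ * b) ^ p1 = y ^ (-(q0 * p1)) * ((e ^ p0)⁻¹ * b) ^ p1 := by
    have h3 : (e ^ p0 * y ^ q0)⁻¹ * b = y ^ (-q0) * ((e ^ p0)⁻¹ * b) := by
      rw [mul_inv_rev, zpow_neg, mul_assoc]
    have h4 : Commute (y ^ (-q0)) ((e ^ p0)⁻¹ * b) :=
      (((hye.zpow_right _).inv_right).mul_right hyb).zpow_left _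
    rw [h3, h4.mul_zpow, ← zpow_mul, neg_mul]
  have h5 : (b * e ^ (-p0)) ^ p1 = e ^ p0 * ((e ^ p0)⁻¹ * b) ^ p1 * (e ^ p0)⁻¹ := by
    have h6 : b * e ^ (-p0) = e ^ p0 * ((e ^ p0)⁻¹ * b) * (e ^ p0)⁻¹ := by
      rw [zpow_neg]
      group
    rw [h6, conj_zpow]
  rw [h5, h2]
  generalize hB : ((e ^ p0)⁻¹ * b) ^ p1 = B
  have hyB : Commute y B := by
    rw [← hB]
    exact (((hye.zpow_right _).inv_right).mul_right hyb).zpow_right _
  have h7 : e ^ p0 * a * e ^ (-p0) * (e ^ p0 * B * (e ^ p0)⁻¹) =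
      e ^ p0 * (a * B) * (e ^ p0)⁻¹ := by
    rw [zpow_neg]
    group
  rw [h7]
  generalize hE : e ^ p0 = E
  have hyE : Commute y E := by
    rw [← hE]
    exact hye.zpow_right _
  have h8 : Commute (y ^ (q1 - q0 * p1)) E := hyE.zpow_left _
  have h9 : Commute (y ^ q0) (a * B) := (hya.mul_right hyB).zpow_left _
  calc (E * y ^ q0)⁻¹ * (E * (a * B) * E⁻¹ * y ^ (q1 - q0 * p1)) * (E * y ^ q0)
      = (y ^ q0)⁻¹ * (a * B) * E⁻¹ * (y ^ (q1 - q0 * p1) * E) * y ^ q0 := by group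
    _ = (y ^ q0)⁻¹ * ((a * B) * y ^ (q1 - q0 * p1)) * y ^ q0 := by
        rw [h8.eq]; group
    _ = (y ^ q0)⁻¹ * (y ^ q0 * (a * B)) * y ^ (q1 - q0 * p1) := by
        rw [h9.eq]; group
    _ = a * B * y ^ (-(q0 * p1)) * y ^ q1 := by group
    _ = a * (y ^ (-(q0 * p1)) * B) * y ^ q1 := by
        rw [mul_assoc a B, (hyB.zpow_left (-(q0 * p1))).eq]

/-- conjugation with `W`, second letter -/
theorem conjW2 (hye : Commute y e) (p0 q0 q2 : ℤ) :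
    (e ^ p0 * y ^ q0)⁻¹ * (b * e ^ (-p0) * y ^ (q2 - q0)) * (e ^ p0 * y ^ q0) =
      (e ^ p0 * y ^ q0)⁻¹ * b * y ^ q2 := by
  rw [zpow_neg]
  generalize hE : e ^ p0 = E
  have hyE : Commute y E := by
    rw [← hE]
    exact hye.zpow_right _
  have h8 : Commute (y ^ (q2 - q0)) E := hyE.zpow_left _
  calc (E * y ^ q0)⁻¹ * (b * E⁻¹ * y ^ (q2 - q0)) * (E * y ^ q0)
      = (E * y ^ q0)⁻¹ * b * E⁻¹ * (y ^ (q2 - q0) * E) * y ^ q0 := by group
    _ = (E * y ^ q0)⁻¹ * b * y ^ q2 := by rw [h8.eq]; group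

end

/-! ## The homomorphism -/

/-- the curve `u` -/
abbrev uu {G : Type*} [Group G] (l : Gen → G) : G := (l .y)⁻¹ * l .d * l .c * (l .d)⁻¹

/-- the curve `e` -/
abbrev ew {G : Type*} [Group G] (l : Gen → G) : G := (l .x)⁻¹ * l .b * l .a * (l .b)⁻¹

/-- the relations one by one -/
structure Rl {G : Type*} [Group G] (n : Exps) (l : Gen → G) : Prop where
  s1 : cm (l .s) (l .x) = cm (l .a) (l .b)
  s2 : cm (l .t) (l .y) = cm (l .c) (l .d)
  bc : cm (l .b) (l .c) = 1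
  bd : cm (l .b) (l .d) = 1
  by' : cm (l .b) (l .y) = 1
  ay : cm (l .a) (l .y) = 1
  ad : (l .a)⁻¹ * l .d * l .a = l .d * (uu l ^ n.q 5 * l .b ^ n.p 5)⁻¹
  ac : (l .a)⁻¹ * (l .c * l .d ^ n.q 6) * l .a =
    uu l ^ n.q 5 * l .b ^ n.p 5 * l .c * (uu l ^ n.q 5 * l .b ^ n.p 5)⁻¹ * l .b ^ n.p 6
  sc : cm (l .s) (l .c) = 1
  sd : cm (l .s) (l .d) = 1
  xc : (l .x)⁻¹ * l .c * l .x = l .c * l .d ^ n.q 3 * l .s ^ n.p 3
  xd : (l .x)⁻¹ * (l .d * l .c ^ n.q 4) * l .x = l .d * l .s ^ n.p 4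
  xy : cm (l .x) (l .y) = 1
  xt : cm (l .x) (l .t) = 1
  ta : (l .t * (ew l ^ n.p 0 * l .y ^ n.q 0))⁻¹ * (l .a * (uu l ^ n.q 5 * l .b ^ n.p 5)) *
    (l .t * (ew l ^ n.p 0 * l .y ^ n.q 0)) =
      l .a * ((ew l ^ n.p 0 * l .y ^ n.q 0)⁻¹ * l .b) ^ n.p 1 * l .y ^ n.q 1
  tb : (l .t * (ew l ^ n.p 0 * l .y ^ n.q 0))⁻¹ *
    (l .b * (l .a * (uu l ^ n.q 5 * l .b ^ n.p 5)) ^ n.p 2) *
    (l .t * (ew l ^ n.p 0 * l .y ^ n.q 0)) =
      (ew l ^ n.p 0 * l .y ^ n.q 0)⁻¹ * l .b * l .y ^ n.q 2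
  sy : (l .s)⁻¹ * l .y * l .s = l .y * l .t ^ n.q 7 * l .x ^ n.p 7
  st : (l .s)⁻¹ * (l .t * (ew l ^ n.p 0 * l .y ^ n.q 0)) * l .s = l .t

theorem Sat.rl {G : Type*} [Group G] {n : Exps} {l : Gen → G} (h : Sat n l) : Rl n l := by
  simp only [Sat, eqs, List.mem_cons, List.not_mem_nil, or_false, forall_eq_or_imp,
    forall_eq] at h
  obtain ⟨h1, h2, h3, h4, h5, h6, h7, h8, h9, h10, h11, h12, h13, h14, h15, h16, h17, h18⟩ := h
  exact ⟨h1, h2, h3, h4, h5, h6, h7, h8, h9, h10, h11, h12, h13, h14, h15, h16, h17, h18⟩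

/-- words in `c, d, y` -/
abbrev i0 {G : Type*} [Group G] (l : Gen → G) : Sg F2 →* G := f3 (l .c) (l .d) (l .y)
/-- words in `a, b` -/
abbrev j0 {G : Type*} [Group G] (l : Gen → G) : F2 →* G := f2 (l .a) (l .b)
/-- words in `c, d` -/
abbrev i1 {G : Type*} [Group G] (l : Gen → G) : F2 →* G := f2 (l .c) (l .d)
/-- words in `x, s` -/
abbrev j1 {G : Type*} [Group G] (l : Gen → G) : F2 →* G := f2 (l .x) (l .s)
/-- words in `a, b, x` -/
abbrev k0 {G : Type*} [Group G] (l : Gen → G) : Sg F2 →* G := f3 (l .a) (l .b) (l .x)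

section

variable {G : Type*} [Group G] {n : Exps} {l : Gen → G} (h : Rl n l)

theorem conj_id {Z : Type*} [Group Z] {i : Z →* G} {b : G}
    (hb : (MulAut.conj b).toMonoidHom.comp i = i) (z : Z) : b * i z = i z * b := by
  have h1 : b * i z * b⁻¹ = i z := DFunLike.congr_fun hb z
  exact mul_inv_eq_iff_eq_mul.1 h1

theorem comm3 {b α β ξ : G} (h1 : b * α = α * b) (h2 : b * β = β * b) (h3 : b * ξ = ξ * b)
    (z : Sg F2) : b * f3 α β ξ z = f3 α β ξ z * b := by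
  refine conj_id (f3_ext ?_ ?_ ?_) z
  · change b * f3 α β ξ cα * b⁻¹ = f3 α β ξ cα
    rw [f3_α, h1, mul_inv_cancel_right]
  · change b * f3 α β ξ cβ * b⁻¹ = f3 α β ξ cβ
    rw [f3_β, h2, mul_inv_cancel_right]
  · change b * f3 α β ξ cξ * b⁻¹ = f3 α β ξ cξ
    rw [f3_ξ, h3, mul_inv_cancel_right]

theorem comm2 {b α β : G} (h1 : b * α = α * b) (h2 : b * β = β * b)
    (z : F2) : b * f2 α β z = f2 α β z * b := by
  refine conj_id (f2_ext ?_ ?_) z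
  · change b * f2 α β (FreeGroup.of true) * b⁻¹ = f2 α β (FreeGroup.of true)
    rw [f2_true, h1, mul_inv_cancel_right]
  · change b * f2 α β (FreeGroup.of false) * b⁻¹ = f2 α β (FreeGroup.of false)
    rw [f2_false, h2, mul_inv_cancel_right]

theorem f3_ee (α β ξ : G) : f3 α β ξ (ee cα cβ cξ) = ξ⁻¹ * β * α * β⁻¹ := by
  rw [ee]
  simp only [map_mul, map_inv, f3_α, f3_β, f3_ξ]

include h

theorem Rl.b_comm (z : Sg F2) : l .b * i0 l z = i0 l z * l .b :=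
  comm3 (of_cm h.bc) (of_cm h.bd) (of_cm h.by') z

theorem Rl.s_comm (z : F2) : l .s * i1 l z = i1 l z * l .s :=
  comm2 (of_cm h.sc) (of_cm h.sd) z

theorem Rl.y_comm (z : Sg F2) : l .y * k0 l z = k0 l z * l .y :=
  comm3 (of_cm h.ay).symm (of_cm h.by').symm (of_cm h.xy).symm z

theorem Rl.h0k (z : Sg F2) : (j0 l fk)⁻¹ * i0 l z * j0 l fk =
    i0 l (φ0 n z) * j0 l (pw fr (θ0 n z)) := by
  have e1 : (MulAut.conj (l .a)⁻¹).toMonoidHom.comp (i0 l) =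
      rhom (i0 l) (l .b) h.b_comm (φ0 n).toMonoidHom (θ0 n) := by
    refine f3_ext' (n.q 6) ?_ ?_ ?_
    · change (l .a)⁻¹ * i0 l cβ * ((l .a)⁻¹)⁻¹ = i0 l (φ0 n cβ) * pw (l .b) (θ0 n cβ)
      have e2 : φ0 n cβ = cβ * ee cα cβ cξ ^ (-n.q 5) := by rw [φ0_apply, DD_β, TT_β]
      have e3 : θ0 n cβ = zz (-n.p 5) := f3_β _ _ _
      rw [e2, e3, map_mul, map_zpow, f3_ee, f3_β, inv_inv, h.ad, pw_apply, mul_inv_rev,
        ← zpow_neg, ← zpow_neg]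
      have hc : Commute (l .b) (uu l) := by
        have := h.b_comm (ee cα cβ cξ)
        rwa [f3_ee] at this
      rw [((hc.zpow_left (-n.p 5)).zpow_right (-n.q 5)).eq, mul_assoc]
      rfl
    · change (l .a)⁻¹ * i0 l (cα * cβ ^ n.q 6) * ((l .a)⁻¹)⁻¹ =
        i0 l (φ0 n (cα * cβ ^ n.q 6)) * pw (l .b) (θ0 n (cα * cβ ^ n.q 6))
      have e2 : φ0 n (cα * cβ ^ n.q 6) = ee cα cβ cξ ^ n.q 5 * cα * ee cα cβ cξ ^ (-n.q 5) := by
        rw [φ0_apply, map_mul, map_zpow, DD_α, DD_β, zpow_neg, inv_mul_cancel_right, TT_α]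
      have e3 : θ0 n (cα * cβ ^ n.q 6) = zz (n.p 6) := by
        have h1 : θ0 n cα = zz (n.p 6 + n.q 6 * n.p 5) := f3_α _ _ _
        have h2 : θ0 n cβ = zz (-n.p 5) := f3_β _ _ _
        rw [map_mul, map_zpow, h1, h2, ← ofAdd_zsmul, ← ofAdd_add]
        congr 1
        simp
      rw [e2, e3]
      simp only [map_mul, map_zpow, f3_ee, f3_α, f3_β]
      rw [inv_inv, h.ac, pw_apply]
      have hc : Commute (l .b) (l .c) := of_cm h.bc
      have h4 := (hc.zpow_left (n.p 5)).eq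
      have h5 : uu l ^ n.q 5 * l .b ^ n.p 5 * l .c * (uu l ^ n.q 5 * l .b ^ n.p 5)⁻¹ =
          uu l ^ n.q 5 * l .c * uu l ^ (-n.q 5) := by
        calc uu l ^ n.q 5 * l .b ^ n.p 5 * l .c * (uu l ^ n.q 5 * l .b ^ n.p 5)⁻¹
            = uu l ^ n.q 5 * (l .b ^ n.p 5 * l .c) * (l .b ^ n.p 5)⁻¹ * (uu l ^ n.q 5)⁻¹ := by
              group
          _ = _ := by rw [h4, zpow_neg]; group
      rw [h5]
      rfl
    · change (l .a)⁻¹ * i0 l cξ * ((l .a)⁻¹)⁻¹ = i0 l (φ0 n cξ) * pw (l .b) (θ0 n cξ)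
      rw [φ0_x, θ0_x, map_one, mul_one, f3_ξ, inv_inv, mul_assoc, ← of_cm h.ay,
        inv_mul_cancel_left]
  have e2 : (l .a)⁻¹ * i0 l z * ((l .a)⁻¹)⁻¹ = i0 l (φ0 n z) * pw (l .b) (θ0 n z) :=
    DFunLike.congr_fun e1 z
  rw [inv_inv] at e2
  rw [f2_true, e2, map_pw, f2_false]

theorem Rl.h1k (z : F2) : (j1 l fk)⁻¹ * i1 l z * j1 l fk =
    i1 l (φ1 n z) * j1 l (pw fr (θ1 n z)) := by
  have e1 : (MulAut.conj (l .x)⁻¹).toMonoidHom.comp (i1 l) =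
      rhom (i1 l) (l .s) h.s_comm (φ1 n).toMonoidHom (θ1 n) := by
    refine f2_ext' (n.q 4) ?_ ?_
    · change (l .x)⁻¹ * i1 l fk * ((l .x)⁻¹)⁻¹ = i1 l (φ1 n fk) * pw (l .s) (θ1 n fk)
      have e2 : φ1 n fk = fk * fr ^ n.q 3 := by
        rw [φ1_apply]
        simp [E2, D2]
      have e3 : θ1 n fk = zz (n.p 3) := f2_true _ _
      rw [e2, e3, map_mul, map_zpow, f2_true, f2_false, inv_inv, h.xc, pw_apply]
      rfl
    · change (l .x)⁻¹ * i1 l (fr * fk ^ n.q 4) * ((l .x)⁻¹)⁻¹ =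
        i1 l (φ1 n (fr * fk ^ n.q 4)) * pw (l .s) (θ1 n (fr * fk ^ n.q 4))
      have e2 : φ1 n (fr * fk ^ n.q 4) = fr := by
        rw [φ1_apply]
        simp [E2, D2]
      have e3 : θ1 n (fr * fk ^ n.q 4) = zz (n.p 4) := by
        have h1 : θ1 n fk = zz (n.p 3) := f2_true _ _
        have h2 : θ1 n fr = zz (n.p 4 - n.q 4 * n.p 3) := f2_false _ _
        rw [map_mul, map_zpow, h1, h2, ← ofAdd_zsmul, ← ofAdd_add]
        congr 1
        simp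
      rw [e2, e3, map_mul, map_zpow, f2_true, f2_false, inv_inv, h.xd, pw_apply]
      rfl
  have e2 : (l .x)⁻¹ * i1 l z * ((l .x)⁻¹)⁻¹ = i1 l (φ1 n z) * pw (l .s) (θ1 n z) :=
    DFunLike.congr_fun e1 z
  rw [inv_inv] at e2
  rw [f2_true, e2, map_pw, f2_false]

theorem Rl.h0r (z : Sg F2) : j0 l fr * i0 l z = i0 l z * j0 l fr := by
  rw [f2_false]
  exact h.b_comm z

theorem Rl.h1r (z : F2) : j1 l fr * i1 l z = i1 l z * j1 l fr := by
  rw [f2_false]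
  exact h.s_comm z

omit h in
/-- the first brick -/
def H0 (h : Rl n l) : Bk (φ0 n) (θ0 n) →* G := bLift (i0 l) (j0 l) h.h0r h.h0k

omit h in
/-- the second brick -/
def H1 (h : Rl n l) : Bk (φ1 n) (θ1 n) →* G := bLift (i1 l) (j1 l) h.h1r h.h1k

end

end Pool.GSQ
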