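import Mathlib

/-!
# The explicit groups: surgeries on eight product tori in a pinwheel position
-/

namespace Pool.GSQ

/-- the surgery exponents of the eight tori -/
structure Exps where
  p : Fin 8 → ℤ
  q : Fin 8 → ℤ

/-- the eight letters: `a, b, x, s` on the first, `c, d, y, t` on the second surface -/
inductive Gen
  | a | b | x | s | c | d | y | t

/-- commutator -/
def cm {G : Type*} [Group G] (g h : G) : G := g * h * g⁻¹ * h⁻¹

/-- the relations between the images `l` of the letters in a group -/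
def eqs {G : Type*} [Group G] (n : Exps) (l : Gen → G) : List (G × G) :=
  let a := l .a; let b := l .b; let x := l .x; let s := l .s
  let c := l .c; let d := l .d; let y := l .y; let t := l .t
  let W := (x⁻¹ * b * a * b⁻¹) ^ n.p 0 * y ^ n.q 0
  let V := (y⁻¹ * d * c * d⁻¹) ^ n.q 5 * b ^ n.p 5
  [(cm s x, cm a b), (cm t y, cm c d),
    (cm b c, 1), (cm b d, 1), (cm b y, 1), (cm a y, 1),
    (a⁻¹ * d * a, d * V⁻¹), (a⁻¹ * (c * d ^ n.q 6) * a, V * c * V⁻¹ * b ^ n.p 6),
    (cm s c, 1), (cm s d, 1),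
    (x⁻¹ * c * x, c * d ^ n.q 3 * s ^ n.p 3), (x⁻¹ * (d * c ^ n.q 4) * x, d * s ^ n.p 4),
    (cm x y, 1), (cm x t, 1),
    ((t * W)⁻¹ * (a * V) * (t * W), a * (W⁻¹ * b) ^ n.p 1 * y ^ n.q 1),
    ((t * W)⁻¹ * (b * (a * V) ^ n.p 2) * (t * W), W⁻¹ * b * y ^ n.q 2),
    (s⁻¹ * y * s, y * t ^ n.q 7 * x ^ n.p 7), (s⁻¹ * (t * W) * s, t)]

/-- the relators of the explicit group -/
def relators (n : Exps) : Set (FreeGroup Gen) := {w | ∃ e ∈ eqs n FreeGroup.of, w = e.1 * e.2⁻¹}

/-- the explicit group -/
abbrev PW (n : Exps) : Type := PresentedGroup (relators n)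

/-- the relations hold for the images of the letters -/
def Sat {G : Type*} [Group G] (n : Exps) (l : Gen → G) : Prop := ∀ e ∈ eqs n l, e.1 = e.2

theorem map_cm {G H : Type*} [Group G] [Group H] (f : G →* H) (g h : G) :
    f (cm g h) = cm (f g) (f h) := by simp [cm]

theorem map_eqs {G H : Type*} [Group G] [Group H] (f : G →* H) (n : Exps) (l : Gen → G) :
    eqs n (fun g => f (l g)) = (eqs n l).map (fun e => (f e.1, f e.2)) := by
  simp [eqs, map_cm]

theorem Sat.map {G H : Type*} [Group G] [Group H] {n : Exps} {l : Gen → G} (h : Sat n l)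
    (f : G →* H) : Sat n (fun g => f (l g)) := by
  intro e he
  rw [map_eqs, List.mem_map] at he
  obtain ⟨e', he', rfl⟩ := he
  exact congrArg f (h e' he')

theorem sat_of (n : Exps) : Sat n (fun g => (PresentedGroup.of g : PW n)) := by
  intro e he
  have h1 : eqs n (fun g => (PresentedGroup.of g : PW n)) =
      (eqs n FreeGroup.of).map (fun e => (PresentedGroup.mk (relators n) e.1,
        PresentedGroup.mk (relators n) e.2)) := map_eqs (PresentedGroup.mk (relators n)) n FreeGroup.of
  rw [h1, List.mem_map] at he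
  obtain ⟨e', he', rfl⟩ := he
  have h2 : PresentedGroup.mk (relators n) (e'.1 * e'.2⁻¹) = 1 :=
    (PresentedGroup.mk_eq_one_iff).2 (Subgroup.subset_normalClosure ⟨e', he', rfl⟩)
  rw [map_mul, map_inv, mul_inv_eq_one] at h2
  exact h2

/-- homomorphisms out of the explicit group -/
def Sat.hom {G : Type*} [Group G] {n : Exps} {l : Gen → G} (h : Sat n l) : PW n →* G :=
  PresentedGroup.toGroup (f := l) (by
    rintro w ⟨e, he, rfl⟩
    have h1 : (FreeGroup.lift l e.1, FreeGroup.lift l e.2) ∈ eqs n l := by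
      have h2 := map_eqs (FreeGroup.lift l) n FreeGroup.of
      simp only [FreeGroup.lift_apply_of] at h2
      change _ ∈ eqs n (fun g => l g)
      rw [h2]
      exact List.mem_map.2 ⟨e, he, rfl⟩
    rw [map_mul, map_inv, mul_inv_eq_one]
    exact h _ h1)

@[simp] theorem Sat.hom_of {G : Type*} [Group G] {n : Exps} {l : Gen → G} (h : Sat n l) (g : Gen) :
    h.hom (PresentedGroup.of g) = l g := PresentedGroup.toGroup.of _

end Pool.GSQ
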