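import Pool.Agent.Lib.GSQ.ExWheel

/-!
# The homomorphism from the explicit group to its pinwheel
-/

namespace Pool.GSQ

open Function Pool.GSP Monoid

variable (n : Exps)

/-- the pinwheel group -/
abbrev PN : Type := (wheel n).Pin

/-- first brick -/
abbrev o0 : Bk (φ0 n) (θ0 n) →* PN n := (wheel n).of0
/-- second brick -/
abbrev o1 : Bk (φ1 n) (θ1 n) →* PN n := (wheel n).of1
/-- letters of the first brick -/
abbrev F0 : F2 →* Bk (φ0 n) (θ0 n) := shF (φ0 n) (θ0 n)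
/-- letters of the second brick -/
abbrev F1 : F2 →* Bk (φ1 n) (θ1 n) := shF (φ1 n) (θ1 n)

/-- images of the letters -/
def lt : Gen → PN n
  | .a => o0 n (F0 n fk)
  | .b => o0 n (F0 n fr)
  | .x => o1 n (F1 n fk)
  | .s => o1 n (F1 n fr)
  | .c => o0 n (shZ cα)
  | .d => o0 n (shZ cβ)
  | .y => o0 n (shZ cξ)
  | .t => (wheel n).t

theorem lt_c : lt n .c = o1 n (shZ fk) := (wheel n).sat.rB fk

theorem lt_d : lt n .d = o1 n (shZ fr) := (wheel n).sat.rB fr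

theorem cm_one {G : Type*} [Group G] {g h : G} (h1 : g * h = h * g) : cm g h = 1 := by
  rw [cm, h1, mul_inv_cancel_right, mul_inv_cancel]

theorem h_bz (z : Sg F2) : lt n .b * o0 n (shZ z) = o0 n (shZ z) * lt n .b := by
  change o0 n _ * _ = _ * o0 n _
  rw [← map_mul, ← map_mul, sh_r]

theorem h_sz (z : F2) : lt n .s * o1 n (shZ z) = o1 n (shZ z) * lt n .s := by
  change o1 n _ * _ = _ * o1 n _
  rw [← map_mul, ← map_mul, sh_r]

theorem h_ay : lt n .a * lt n .y = lt n .y * lt n .a := by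
  change o0 n _ * o0 n _ = o0 n _ * o0 n _
  rw [← map_mul, ← map_mul, sh_fix (φ0 n) (θ0 n) (φ0_x n) (θ0_x n)]

theorem pw_zz (g : F2) (k : ℤ) : pw g (zz k) = g ^ k := by
  rw [pw_apply]
  rfl

theorem h_az (z : Sg F2) (z' : Sg F2) (k : ℤ) (h1 : φ0 n z = z') (h2 : θ0 n z = zz k) :
    (lt n .a)⁻¹ * o0 n (shZ z) * lt n .a = o0 n (shZ z') * lt n .b ^ k := by
  have h := congrArg (o0 n) (sh_k (φ0 n) (θ0 n) z)
  rw [h1, h2, pw_zz, map_zpow] at h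
  simp only [map_mul, map_inv, map_zpow] at h
  exact h

theorem h_xz (z : F2) (z' : F2) (k : ℤ) (h1 : φ1 n z = z') (h2 : θ1 n z = zz k) :
    (lt n .x)⁻¹ * o1 n (shZ z) * lt n .x = o1 n (shZ z') * lt n .s ^ k := by
  have h := congrArg (o1 n) (sh_k (φ1 n) (θ1 n) z)
  rw [h1, h2, pw_zz, map_zpow] at h
  simp only [map_mul, map_inv, map_zpow] at h
  exact h

/-- the curve `u` -/
theorem lt_u : (lt n .y)⁻¹ * lt n .d * lt n .c * (lt n .d)⁻¹ = o0 n (shZ (ee cα cβ cξ)) := by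
  change (o0 n _)⁻¹ * o0 n _ * o0 n _ * (o0 n _)⁻¹ = _
  rw [← map_inv, ← map_inv, ← map_mul, ← map_mul, ← map_mul, ee]
  simp only [map_mul, map_inv]

theorem h_ad : (lt n .a)⁻¹ * lt n .d * lt n .a = lt n .d *
    (((lt n .y)⁻¹ * lt n .d * lt n .c * (lt n .d)⁻¹) ^ n.q 5 * lt n .b ^ n.p 5)⁻¹ := by
  have h := h_az n cβ (cβ * ee cα cβ cξ ^ (-n.q 5)) (-n.p 5) (by rw [φ0_apply, DD_β, TT_β])
    (f3_β _ _ _)
  rw [lt_u, mul_inv_rev, ← zpow_neg, ← zpow_neg]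
  refine h.trans ?_
  have h2 := h_bz n (ee cα cβ cξ ^ (-n.q 5))
  have h3 : lt n .b ^ (-n.p 5) * o0 n (shZ (ee cα cβ cξ)) ^ (-n.q 5) =
      o0 n (shZ (ee cα cβ cξ)) ^ (-n.q 5) * lt n .b ^ (-n.p 5) := by
    have : Commute (lt n .b) (o0 n (shZ (ee cα cβ cξ))) := h_bz n _
    exact ((this.zpow_left _).zpow_right _).eq
  rw [h3, map_mul, map_mul, map_zpow, map_zpow, mul_assoc]
  rfl

theorem h_ac : (lt n .a)⁻¹ * (lt n .c * lt n .d ^ n.q 6) * lt n .a =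
    (((lt n .y)⁻¹ * lt n .d * lt n .c * (lt n .d)⁻¹) ^ n.q 5 * lt n .b ^ n.p 5) * lt n .c *
    (((lt n .y)⁻¹ * lt n .d * lt n .c * (lt n .d)⁻¹) ^ n.q 5 * lt n .b ^ n.p 5)⁻¹ *
      lt n .b ^ n.p 6 := by
  have e1 : φ0 n (cα * cβ ^ n.q 6) = ee cα cβ cξ ^ n.q 5 * cα * ee cα cβ cξ ^ (-n.q 5) := by
    rw [φ0_apply, map_mul, map_zpow, DD_α, DD_β, zpow_neg, inv_mul_cancel_right, TT_α]
  have e2 : θ0 n (cα * cβ ^ n.q 6) = zz (n.p 6) := by
    have h1 : θ0 n cα = zz (n.p 6 + n.q 6 * n.p 5) := f3_α _ _ _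
    have h2 : θ0 n cβ = zz (-n.p 5) := f3_β _ _ _
    rw [map_mul, map_zpow, h1, h2, ← ofAdd_zsmul, ← ofAdd_add]
    congr 1
    simp
  have h := h_az n _ _ _ e1 e2
  rw [lt_u]
  have hb : Commute (lt n .b) (lt n .c) := h_bz n _
  have h3 : (o0 n (shZ (ee cα cβ cξ)) ^ n.q 5 * lt n .b ^ n.p 5) * lt n .c *
      (o0 n (shZ (ee cα cβ cξ)) ^ n.q 5 * lt n .b ^ n.p 5)⁻¹ =
      o0 n (shZ (ee cα cβ cξ)) ^ n.q 5 * lt n .c * (o0 n (shZ (ee cα cβ cξ)) ^ n.q 5)⁻¹ := by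
    have h4 := (hb.zpow_left (n.p 5)).eq
    calc _ = o0 n (shZ (ee cα cβ cξ)) ^ n.q 5 * (lt n .b ^ n.p 5 * lt n .c) *
          (lt n .b ^ n.p 5)⁻¹ * (o0 n (shZ (ee cα cβ cξ)) ^ n.q 5)⁻¹ := by group
      _ = _ := by rw [h4]; group
  rw [h3]
  simp only [map_mul, map_zpow] at h
  rw [zpow_neg] at h
  exact h

theorem h_xc : (lt n .x)⁻¹ * lt n .c * lt n .x = lt n .c * lt n .d ^ n.q 3 * lt n .s ^ n.p 3 := by
  have h := h_xz n fk (fk * fr ^ n.q 3) (n.p 3) (by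
    rw [φ1_apply]
    simp [E2, D2]) (f2_true _ _)
  simp only [map_mul, map_zpow] at h
  rw [lt_c, lt_d]
  exact h

theorem h_xd : (lt n .x)⁻¹ * (lt n .d * lt n .c ^ n.q 4) * lt n .x = lt n .d * lt n .s ^ n.p 4 := by
  have h := h_xz n (fr * fk ^ n.q 4) fr (n.p 4) (by
    rw [φ1_apply]
    simp [E2, D2]) (by
    have h1 : θ1 n fk = zz (n.p 3) := f2_true _ _
    have h2 : θ1 n fr = zz (n.p 4 - n.q 4 * n.p 3) := f2_false _ _
    rw [map_mul, map_zpow, h1, h2, ← ofAdd_zsmul, ← ofAdd_add]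
    congr 1
    simp)
  simp only [map_mul, map_zpow] at h
  rw [lt_c, lt_d]
  exact h

theorem h_surf1 : cm (lt n .s) (lt n .x) = cm (lt n .a) (lt n .b) := by
  have h := (wheel n).sat.r0
  have h1 : o0 n (F0 n δδ) = cm (lt n .a) (lt n .b) := by
    rw [δδ]
    simp only [map_mul, map_inv]
    rfl
  have h2 : o1 n (F1 n cmF) = cm (lt n .s) (lt n .x) := by
    rw [cmF]
    simp only [map_mul, map_inv]
    rfl
  rw [← h1, ← h2]
  exact h.symm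

theorem h_surf2 : cm (lt n .t) (lt n .y) = cm (lt n .c) (lt n .d) := by
  have h := (wheel n).sat.ry
  have h1 : o0 n (shZ (Coprod.inl δδ * xS)) = cm (lt n .c) (lt n .d) * lt n .y := by
    rw [inl_δδ_mul, bd]
    simp only [map_mul, map_inv]
    rfl
  have h2 : lt n .t * lt n .y = cm (lt n .c) (lt n .d) * lt n .y * lt n .t := by
    rw [← h1]
    exact h
  rw [cm, h2]
  group

theorem h_xy : lt n .x * lt n .y = lt n .y * lt n .x := (wheel n).sat.rxy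

theorem h_xt : lt n .x * lt n .t = lt n .t * lt n .x := (wheel n).sat.rx

/-- the value of `evN` -/
theorem evN_mk (z : Sg F2) (k : ℤ) : (wheel n).evN (o0 n) (o1 n) ⟨z, zz k⟩ =
    sgLift ((o0 n).comp (F0 n)) (lt n .x) z * lt n .y ^ k := by
  change sgLift _ _ z * pw _ (zz k) = _
  rw [pw_apply]
  rfl

/-- evaluation of the words in `a, b, x` -/
abbrev ex3 : Sg F2 →* PN n := sgLift ((o0 n).comp (F0 n)) (lt n .x)

theorem ex_α : ex3 n cα = lt n .a := sgLift_inl _ _ _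
theorem ex_β : ex3 n cβ = lt n .b := sgLift_inl _ _ _
theorem ex_ξ : ex3 n cξ = lt n .x := sgLift_x _ _

theorem ex_ee : ex3 n (ee cα cβ cξ) = (lt n .x)⁻¹ * lt n .b * lt n .a * (lt n .b)⁻¹ := by
  rw [ee]
  simp only [map_mul, map_inv, ex_α, ex_β, ex_ξ]

/-- the element `W` -/
abbrev WW : PN n := ((lt n .x)⁻¹ * lt n .b * lt n .a * (lt n .b)⁻¹) ^ n.p 0 * lt n .y ^ n.q 0

/-- the element `V` -/
abbrev VV : PN n := ((lt n .y)⁻¹ * lt n .d * lt n .c * (lt n .d)⁻¹) ^ n.q 5 * lt n .b ^ n.p 5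

theorem dad : (lt n .d)⁻¹ * lt n .a * lt n .d = lt n .a * VV n := by
  have h := h_ad n
  have h1 : (VV n) = (lt n .a)⁻¹ * (lt n .d)⁻¹ * lt n .a * lt n .d := by
    have h2 : (VV n)⁻¹ = (lt n .d)⁻¹ * ((lt n .a)⁻¹ * lt n .d * lt n .a) := by
      rw [h, inv_mul_cancel_left]
    rw [← inv_inj, h2]
    group
  rw [h1]
  group

theorem comm_y {w : Sg F2} : Commute (lt n .y) (ex3 n w) := by
  have h : ((MulAut.conj (lt n .y)).toMonoidHom.comp (ex3 n)) = ex3 n := by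
    refine f3_ext ?_ ?_ ?_
    · change lt n .y * ex3 n cα * (lt n .y)⁻¹ = _
      rw [ex_α, ← h_ay, mul_inv_cancel_right]
    · change lt n .y * ex3 n cβ * (lt n .y)⁻¹ = _
      have h1 : lt n .b * lt n .y = lt n .y * lt n .b := h_bz n _
      rw [ex_β, ← h1, mul_inv_cancel_right]
    · change lt n .y * ex3 n cξ * (lt n .y)⁻¹ = _
      rw [ex_ξ, ← h_xy, mul_inv_cancel_right]
  have h1 : lt n .y * ex3 n w * (lt n .y)⁻¹ = ex3 n w := DFunLike.congr_fun h w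
  exact mul_inv_eq_iff_eq_mul.1 h1

/-- the relation `rA` for one element -/
theorem rA_eq (v : F2) (z : Sg F2) (k : ℤ) (h1 : ψ0 n (Coprod.inl v) = z)
    (h2 : η0 n (Coprod.inl v) = zz k) :
    (lt n .t)⁻¹ * ((lt n .d)⁻¹ * o0 n (F0 n v) * lt n .d) * lt n .t = ex3 n z * lt n .y ^ k := by
  have h := (wheel n).sat.rA v
  have h3 : (wheel n).Ψ (SemidirectProduct.inl (Coprod.inl v)) = ⟨z, zz k⟩ := by
    change Ψ0 n ⟨Coprod.inl v, 1⟩ = _
    rw [Ψ0_mk, h1, h2, mul_one]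
    rfl
  rw [h3, evN_mk] at h
  have h4 : (wheel n).of0 ((wheel n).f' v) = (lt n .d)⁻¹ * o0 n (F0 n v) * lt n .d := by
    change o0 n ((shZ cβ)⁻¹ * F0 n v * ((shZ cβ)⁻¹)⁻¹) = _
    rw [inv_inv, map_mul, map_mul, map_inv]
    rfl
  rw [h4] at h
  have h5 : (wheel n).t = lt n .t := rfl
  rw [h5] at h
  rw [mul_assoc, h, inv_mul_cancel_left]

theorem h_ta : (lt n .t * WW n)⁻¹ * (lt n .a * VV n) * (lt n .t * WW n) =
    lt n .a * ((WW n)⁻¹ * lt n .b) ^ n.p 1 * lt n .y ^ n.q 1 := by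
  have e1 : ψ0 n cα = ee cα cβ cξ ^ n.p 0 * cα * ee cα cβ cξ ^ (-n.p 0) *
      (cβ * ee cα cβ cξ ^ (-n.p 0)) ^ n.p 1 := by
    rw [ψ0_apply, EA_α, DD_α, map_mul, map_zpow, TT_α, TT_β]
  have e2 : η0 n cα = zz (n.q 1 - n.q 0 * n.p 1) := f3_α _ _ _
  have h := rA_eq n fk _ _ e1 e2
  have h0 : o0 n (F0 n fk) = lt n .a := rfl
  rw [h0, dad] at h
  simp only [map_mul, map_zpow, ex_ee, ex_α, ex_β] at h
  generalize he : (lt n .x)⁻¹ * lt n .b * lt n .a * (lt n .b)⁻¹ = e at h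
  have hye : Commute (lt n .y) e := by
    have := comm_y n (w := ee cα cβ cξ)
    rwa [ex_ee, he] at this
  have hya : Commute (lt n .y) (lt n .a) := (h_ay n).symm
  have hyb : Commute (lt n .y) (lt n .b) := (h_bz n cξ).symm
  simp only [WW]
  rw [he]
  generalize lt n .a = a at *
  generalize lt n .b = b at *
  generalize lt n .y = y at *
  generalize lt n .t = t at *
  generalize VV n = V at *
  have h1 : (t * (e ^ n.p 0 * y ^ n.q 0))⁻¹ * (a * V) * (t * (e ^ n.p 0 * y ^ n.q 0)) =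
      (e ^ n.p 0 * y ^ n.q 0)⁻¹ * (t⁻¹ * (a * V) * t) * (e ^ n.p 0 * y ^ n.q 0) := by group
  rw [h1, h]
  have h2 : ((e ^ n.p 0 * y ^ n.q 0)⁻¹ * b) ^ n.p 1 =
      y ^ (-(n.q 0 * n.p 1)) * ((e ^ n.p 0)⁻¹ * b) ^ n.p 1 := by
    have h3 : (e ^ n.p 0 * y ^ n.q 0)⁻¹ * b = y ^ (-n.q 0) * ((e ^ n.p 0)⁻¹ * b) := by
      rw [mul_inv_rev, zpow_neg, mul_assoc]
    have h4 : Commute (y ^ (-n.q 0)) ((e ^ n.p 0)⁻¹ * b) :=
      (((hye.zpow_right _).inv_right).mul_right hyb).zpow_left _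
    rw [h3, h4.mul_zpow, ← zpow_mul, neg_mul]
  have h5 : (b * e ^ (-n.p 0)) ^ n.p 1 =
      e ^ n.p 0 * ((e ^ n.p 0)⁻¹ * b) ^ n.p 1 * (e ^ n.p 0)⁻¹ := by
    have h6 : b * e ^ (-n.p 0) = e ^ n.p 0 * ((e ^ n.p 0)⁻¹ * b) * (e ^ n.p 0)⁻¹ := by
      rw [zpow_neg]
      group
    rw [h6, conj_zpow]
  rw [h5, h2]
  generalize hB : ((e ^ n.p 0)⁻¹ * b) ^ n.p 1 = B
  have hyB : Commute y B := by
    rw [← hB]
    exact (((hye.zpow_right _).inv_right).mul_right hyb).zpow_right _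
  have h7 : e ^ n.p 0 * a * e ^ (-n.p 0) * (e ^ n.p 0 * B * (e ^ n.p 0)⁻¹) =
      e ^ n.p 0 * (a * B) * (e ^ n.p 0)⁻¹ := by
    rw [zpow_neg]
    group
  rw [h7]
  generalize hE : e ^ n.p 0 = E
  have hyE : Commute y E := by
    rw [← hE]
    exact hye.zpow_right _
  have h8 : Commute (y ^ (n.q 1 - n.q 0 * n.p 1)) E := hyE.zpow_left _
  have h9 : Commute (y ^ n.q 0) (a * B) := (hya.mul_right hyB).zpow_left _
  have h10 : Commute (y ^ (-(n.q 0 * n.p 1))) a := hya.zpow_left _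
  calc (E * y ^ n.q 0)⁻¹ * (E * (a * B) * E⁻¹ * y ^ (n.q 1 - n.q 0 * n.p 1)) * (E * y ^ n.q 0)
      = (y ^ n.q 0)⁻¹ * (a * B) * E⁻¹ * (y ^ (n.q 1 - n.q 0 * n.p 1) * E) * y ^ n.q 0 := by group
    _ = (y ^ n.q 0)⁻¹ * ((a * B) * y ^ (n.q 1 - n.q 0 * n.p 1)) * y ^ n.q 0 := by
        rw [h8.eq]; group
    _ = (y ^ n.q 0)⁻¹ * (y ^ n.q 0 * (a * B)) * y ^ (n.q 1 - n.q 0 * n.p 1) := by
        rw [h9.eq]; group
    _ = a * B * y ^ (-(n.q 0 * n.p 1)) * y ^ n.q 1 := by group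
    _ = a * (y ^ (-(n.q 0 * n.p 1)) * B) * y ^ n.q 1 := by
        rw [mul_assoc a B, (hyB.zpow_left (-(n.q 0 * n.p 1))).eq]

theorem h_tb : (lt n .t * WW n)⁻¹ * (lt n .b * (lt n .a * VV n) ^ n.p 2) * (lt n .t * WW n) =
    (WW n)⁻¹ * lt n .b * lt n .y ^ n.q 2 := by
  have e1 : ψ0 n (Coprod.inl (fr * fk ^ n.p 2)) = cβ * ee cα cβ cξ ^ (-n.p 0) := by
    have e0 : (Coprod.inl (fr * fk ^ n.p 2) : Sg F2) = cβ * cα ^ n.p 2 := by
      rw [map_mul, map_zpow]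
    rw [e0, ψ0_apply, map_mul, map_zpow, EA_α, EA_β, zpow_neg, inv_mul_cancel_right, DD_β, TT_β]
  have e2 : η0 n (Coprod.inl (fr * fk ^ n.p 2)) = zz (n.q 2 - n.q 0) := by
    have e0 : (Coprod.inl (fr * fk ^ n.p 2) : Sg F2) = cβ * cα ^ n.p 2 := by
      rw [map_mul, map_zpow]
    have h1 : η0 n cα = zz (n.q 1 - n.q 0 * n.p 1) := f3_α _ _ _
    have h2 : η0 n cβ = zz (-n.q 0 + n.q 2 - n.p 2 * (n.q 1 - n.q 0 * n.p 1)) := f3_β _ _ _
    rw [e0, map_mul, map_zpow, h1, h2, ← ofAdd_zsmul, ← ofAdd_add]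
    congr 1
    simp only [smul_eq_mul]
    ring
  have h := rA_eq n _ _ _ e1 e2
  have h0 : o0 n (F0 n (fr * fk ^ n.p 2)) = lt n .b * lt n .a ^ n.p 2 := by
    rw [map_mul, map_mul, map_zpow, map_zpow]
    rfl
  have h00 : (lt n .d)⁻¹ * (lt n .b * lt n .a ^ n.p 2) * lt n .d =
      lt n .b * (lt n .a * VV n) ^ n.p 2 := by
    rw [← dad]
    have h1 : (lt n .d)⁻¹ * lt n .a * lt n .d = (lt n .d)⁻¹ * lt n .a * ((lt n .d)⁻¹)⁻¹ := by
      rw [inv_inv]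
    rw [h1, conj_zpow, inv_inv]
    have hb : lt n .b * lt n .d = lt n .d * lt n .b := h_bz n _
    have hb' : (lt n .d)⁻¹ * lt n .b = lt n .b * (lt n .d)⁻¹ := by
      rw [inv_mul_eq_iff_eq_mul, ← mul_assoc, ← hb, mul_inv_cancel_right]
    calc (lt n .d)⁻¹ * (lt n .b * lt n .a ^ n.p 2) * lt n .d
        = ((lt n .d)⁻¹ * lt n .b) * lt n .a ^ n.p 2 * lt n .d := by group
      _ = _ := by rw [hb']; group
  rw [h0, h00] at h
  simp only [map_mul, map_zpow, ex_ee, ex_β] at h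
  generalize he : (lt n .x)⁻¹ * lt n .b * lt n .a * (lt n .b)⁻¹ = e at h
  have hye : Commute (lt n .y) e := by
    have := comm_y n (w := ee cα cβ cξ)
    rwa [ex_ee, he] at this
  have hyb : Commute (lt n .y) (lt n .b) := (h_bz n cξ).symm
  simp only [WW]
  rw [he]
  generalize lt n .a = a at *
  generalize lt n .b = b at *
  generalize lt n .y = y at *
  generalize lt n .t = t at *
  generalize VV n = V at *
  have h1 : (t * (e ^ n.p 0 * y ^ n.q 0))⁻¹ * (b * (a * V) ^ n.p 2) *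
      (t * (e ^ n.p 0 * y ^ n.q 0)) =
      (e ^ n.p 0 * y ^ n.q 0)⁻¹ * (t⁻¹ * (b * (a * V) ^ n.p 2) * t) *
        (e ^ n.p 0 * y ^ n.q 0) := by group
  rw [h1, h, zpow_neg]
  generalize hE : e ^ n.p 0 = E
  have hyE : Commute y E := by
    rw [← hE]
    exact hye.zpow_right _
  have h8 : Commute (y ^ (n.q 2 - n.q 0)) E := hyE.zpow_left _
  calc (E * y ^ n.q 0)⁻¹ * (b * E⁻¹ * y ^ (n.q 2 - n.q 0)) * (E * y ^ n.q 0)
      = (E * y ^ n.q 0)⁻¹ * b * E⁻¹ * (y ^ (n.q 2 - n.q 0) * E) * y ^ n.q 0 := by group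
    _ = (E * y ^ n.q 0)⁻¹ * b * y ^ n.q 2 := by rw [h8.eq]; group

theorem h_sy : (lt n .s)⁻¹ * lt n .y * lt n .s =
    lt n .y * lt n .t ^ n.q 7 * lt n .x ^ n.p 7 := by
  have h := (wheel n).sat.rs
  have h3 : (wheel n).Φ (FreeGroup.of true, 1) = (fk * fr ^ n.q 7, zz (n.p 7)) := by
    change Φ0 n (fk, 1) = _
    rw [Φ0_mk, ψ1_apply, mul_one, D2, f2_true, η1, f2_true]
  rw [h3] at h
  have h4 : (wheel n).evM (o0 n) (o1 n) (wheel n).t (fk * fr ^ n.q 7, zz (n.p 7)) =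
      lt n .y * lt n .t ^ n.q 7 * lt n .x ^ n.p 7 := by
    change FreeGroup.lift _ (fk * fr ^ n.q 7) * pw _ (zz (n.p 7)) = _
    rw [map_mul, map_zpow, FreeGroup.lift_apply_of, FreeGroup.lift_apply_of, pw_apply]
    rfl
  rw [h4] at h
  rw [mul_assoc, inv_mul_eq_iff_eq_mul]
  exact h

theorem h_st : (lt n .s)⁻¹ * (lt n .t * WW n) * lt n .s = lt n .t := by
  have h := (wheel n).sat.rt
  have h3 : (wheel n).Φ (FreeGroup.of false, 1) = (fr, 1) := by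
    change Φ0 n (fr, 1) = _
    rw [Φ0_mk, ψ1_apply, mul_one, D2, f2_false, η1, f2_false]
  have h5 : (wheel n).evN (o0 n) (o1 n) (wheel n).w = WW n := by
    change (wheel n).evN (o0 n) (o1 n) ⟨ee cα cβ cξ ^ n.p 0, zz (n.q 0)⟩ = _
    rw [evN_mk, map_zpow, ex_ee]
  have h4 : (wheel n).evM (o0 n) (o1 n) (wheel n).t (fr, 1) = lt n .t := by
    change FreeGroup.lift _ fr * pw _ 1 = _
    rw [map_one, mul_one, FreeGroup.lift_apply_of]
    rfl
  rw [h3, h4, h5] at h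
  rw [mul_assoc, inv_mul_eq_iff_eq_mul]
  exact h

/-- the relations hold in the pinwheel group -/
theorem satPin : Sat n (lt n) := by
  intro e he
  simp only [eqs, List.mem_cons, List.not_mem_nil, or_false] at he
  rcases he with rfl | rfl | rfl | rfl | rfl | rfl | rfl | rfl | rfl | rfl | rfl | rfl | rfl |
    rfl | rfl | rfl | rfl | rfl
  · exact h_surf1 n
  · exact h_surf2 n
  · exact cm_one (h_bz n _)
  · exact cm_one (h_bz n _)
  · exact cm_one (h_bz n _)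
  · exact cm_one (h_ay n)
  · exact h_ad n
  · exact h_ac n
  · refine cm_one ?_
    rw [lt_c]
    exact h_sz n _
  · refine cm_one ?_
    rw [lt_d]
    exact h_sz n _
  · exact h_xc n
  · exact h_xd n
  · exact cm_one (h_xy n)
  · exact cm_one (h_xt n)
  · exact h_ta n
  · exact h_tb n
  · exact h_sy n
  · exact h_st n

/-- the homomorphism to the pinwheel group -/
def toPin : PW n →* PN n := (satPin n).hom

theorem toPin_of (g : Gen) : toPin n (PresentedGroup.of g) = lt n g := (satPin n).hom_of g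

end Pool.GSQ
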