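import Pool.Agent.Lib.GSQ.ExDef

/-!
# First homology of the explicit groups
-/

namespace Pool.GSQ

open Function

theorem cm_comm {H : Type*} [CommGroup H] (a b : H) : cm a b = 1 := by
  rw [cm, mul_inv_eq_one, mul_inv_eq_iff_eq_mul, mul_comm]

/-- the additive relations -/
structure AddSat {M : Type*} [AddCommGroup M] (n : Exps) (l : Gen → M) : Prop where
  e0 : n.p 0 • (l .a - l .x) + n.q 0 • l .y = 0
  e1 : n.p 1 • l .b + n.q 1 • l .y = 0
  e2 : n.p 2 • l .a - n.q 2 • l .y = 0
  e3 : n.p 3 • l .s + n.q 3 • l .d = 0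
  e4 : n.q 4 • l .c - n.p 4 • l .s = 0
  e5 : n.p 5 • l .b + n.q 5 • l .c - n.q 5 • l .y = 0
  e6 : n.q 6 • l .d - n.p 6 • l .b = 0
  e7 : n.q 7 • l .t + n.p 7 • l .x = 0

variable {n : Exps}

/-- the relations in a commutative group -/
theorem AddSat.sat {M : Type*} [AddCommGroup M] {l : Gen → M} (h : AddSat n l) :
    Sat n (fun g => Multiplicative.ofAdd (l g)) := by
  have hW : ((Multiplicative.ofAdd (l .x))⁻¹ * Multiplicative.ofAdd (l .b) *
      Multiplicative.ofAdd (l .a) * (Multiplicative.ofAdd (l .b))⁻¹) ^ n.p 0 *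
      Multiplicative.ofAdd (l .y) ^ n.q 0 = 1 := by
    simp only [← ofAdd_neg, ← ofAdd_add, ← ofAdd_zsmul]
    rw [ofAdd_eq_one]
    linear_combination (norm := module) h.e0
  have hV : ((Multiplicative.ofAdd (l .y))⁻¹ * Multiplicative.ofAdd (l .d) *
      Multiplicative.ofAdd (l .c) * (Multiplicative.ofAdd (l .d))⁻¹) ^ n.q 5 *
      Multiplicative.ofAdd (l .b) ^ n.p 5 = 1 := by
    simp only [← ofAdd_neg, ← ofAdd_add, ← ofAdd_zsmul]
    rw [ofAdd_eq_one]
    linear_combination (norm := module) h.e5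
  intro e he
  simp only [eqs, List.mem_cons, List.not_mem_nil, or_false, hW, hV] at he
  rcases he with rfl | rfl | rfl | rfl | rfl | rfl | rfl | rfl | rfl | rfl | rfl | rfl | rfl |
    rfl | rfl | rfl | rfl | rfl
  · rw [cm_comm, cm_comm]
  · rw [cm_comm, cm_comm]
  · exact cm_comm _ _
  · exact cm_comm _ _
  · exact cm_comm _ _
  · exact cm_comm _ _
  · simp only [inv_one, mul_one]
    rw [mul_comm, mul_inv_cancel_left]
  · simp only [inv_one, mul_one, one_mul]
    simp only [← ofAdd_neg, ← ofAdd_add, ← ofAdd_zsmul]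
    congr 1
    linear_combination (norm := module) h.e6
  · exact cm_comm _ _
  · exact cm_comm _ _
  · simp only [← ofAdd_neg, ← ofAdd_add, ← ofAdd_zsmul]
    congr 1
    linear_combination (norm := module) -h.e3
  · simp only [← ofAdd_neg, ← ofAdd_add, ← ofAdd_zsmul]
    congr 1
    linear_combination (norm := module) h.e4
  · exact cm_comm _ _
  · exact cm_comm _ _
  · simp only [inv_one, mul_one, one_mul]
    simp only [← ofAdd_neg, ← ofAdd_add, ← ofAdd_zsmul]
    congr 1
    linear_combination (norm := module) -h.e1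
  · simp only [inv_one, mul_one, one_mul]
    simp only [← ofAdd_neg, ← ofAdd_add, ← ofAdd_zsmul]
    congr 1
    linear_combination (norm := module) h.e2
  · simp only [← ofAdd_neg, ← ofAdd_add, ← ofAdd_zsmul]
    congr 1
    linear_combination (norm := module) -h.e7
  · simp only [mul_one]
    rw [mul_comm, mul_inv_cancel_left]

/-- the additive relations obtained from a homomorphism to a commutative group -/
theorem Sat.addSat {G : Type*} [Group G] {H : Type*} [CommGroup H] {l : Gen → G}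
    (h : Sat n l) (f : G →* H) : AddSat n (fun g => Additive.ofMul (f (l g))) := by
  have h1 := h.map f
  simp only [Sat, eqs, List.mem_cons, List.not_mem_nil, or_false, forall_eq_or_imp,
    forall_eq] at h1
  obtain ⟨-, -, -, -, -, -, h7, h8, -, -, h11, h12, -, -, h15, h16, h17, h18⟩ := h1
  have k7 := congrArg Additive.ofMul h7
  have k8 := congrArg Additive.ofMul h8
  have k11 := congrArg Additive.ofMul h11
  have k12 := congrArg Additive.ofMul h12
  have k15 := congrArg Additive.ofMul h15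
  have k16 := congrArg Additive.ofMul h16
  have k17 := congrArg Additive.ofMul h17
  have k18 := congrArg Additive.ofMul h18
  simp only [ofMul_mul, ofMul_inv, ofMul_zpow] at k7 k8 k11 k12 k15 k16 k17 k18
  have e0 : n.p 0 • (Additive.ofMul (f (l .a)) - Additive.ofMul (f (l .x))) +
      n.q 0 • Additive.ofMul (f (l .y)) = 0 := by
    linear_combination (norm := module) k18
  have e5 : n.p 5 • Additive.ofMul (f (l .b)) + n.q 5 • Additive.ofMul (f (l .c)) -
      n.q 5 • Additive.ofMul (f (l .y)) = 0 := by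
    linear_combination (norm := module) k7
  refine ⟨e0, ?_, ?_, ?_, ?_, e5, ?_, ?_⟩
  · linear_combination (norm := module) -k15 + e5 + n.p 1 • e0
  · linear_combination (norm := module) k16 - n.p 2 • e5 - e0
  · linear_combination (norm := module) -k11
  · linear_combination (norm := module) k12
  · linear_combination (norm := module) k8
  · linear_combination (norm := module) -k17

/-- the determinant of the relations between `b, s, c, d, y` -/
def Exps.det (n : Exps) : ℤ := n.p 3 * n.q 4 * n.q 6 * (n.p 1 * n.q 5 + n.p 5 * n.q 1) -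
  n.p 4 * n.p 6 * n.q 1 * n.q 3 * n.q 5

theorem zsmul_eq_zero_of_abs {M : Type*} [AddCommGroup M] {a : M} {m : ℤ} (hm : |m| = 1)
    (h : m • a = 0) : a = 0 := by
  rcases (abs_eq zero_le_one).mp hm with rfl | rfl
  · simpa using h
  · simpa using h

/-- unimodular relations have only the trivial solution -/
theorem AddSat.trivial {M : Type*} [AddCommGroup M] {l : Gen → M}
    (h : AddSat n l) (hD : |n.det| = 1) (h0 : |n.p 0| = 1) (h2 : |n.p 2| = 1)
    (h7 : |n.q 7| = 1) : ∀ g, l g = 0 := by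
  obtain ⟨e0, e1, e2, e3, e4, e5, e6, e7⟩ := h
  have hb : l .b = 0 := zsmul_eq_zero_of_abs hD (by
    rw [Exps.det]
    linear_combination (norm := module) (n.p 3 * n.q 4 * n.q 5 * n.q 6) • e1 +
      (n.p 3 * n.q 1 * n.q 4 * n.q 6) • e5 + (n.p 4 * n.q 1 * n.q 3 * n.q 5) • e6 +
      (- n.p 4 * n.q 1 * n.q 5 * n.q 6) • e3 + (- n.p 3 * n.q 1 * n.q 5 * n.q 6) • e4)
  have hs : l .s = 0 := zsmul_eq_zero_of_abs hD (by
    rw [Exps.det]
    linear_combination (norm := module) (- n.p 6 * n.q 3 * n.q 4 * n.q 5) • e1 +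
      (- n.p 6 * n.q 1 * n.q 3 * n.q 4) • e5 +
      (- n.p 1 * n.q 3 * n.q 4 * n.q 5 - n.p 5 * n.q 1 * n.q 3 * n.q 4) • e6 +
      (n.p 1 * n.q 4 * n.q 5 * n.q 6 + n.p 5 * n.q 1 * n.q 4 * n.q 6) • e3 +
      (n.p 6 * n.q 1 * n.q 3 * n.q 5) • e4)
  have hc : l .c = 0 := zsmul_eq_zero_of_abs hD (by
    rw [Exps.det]
    linear_combination (norm := module) (- n.p 4 * n.p 6 * n.q 3 * n.q 5) • e1 +
      (- n.p 4 * n.p 6 * n.q 1 * n.q 3) • e5 +
      (- n.p 1 * n.p 4 * n.q 3 * n.q 5 - n.p 4 * n.p 5 * n.q 1 * n.q 3) • e6 +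
      (n.p 1 * n.p 4 * n.q 5 * n.q 6 + n.p 4 * n.p 5 * n.q 1 * n.q 6) • e3 +
      (n.p 1 * n.p 3 * n.q 5 * n.q 6 + n.p 3 * n.p 5 * n.q 1 * n.q 6) • e4)
  have hd : l .d = 0 := zsmul_eq_zero_of_abs hD (by
    rw [Exps.det]
    linear_combination (norm := module) (n.p 3 * n.p 6 * n.q 4 * n.q 5) • e1 +
      (n.p 3 * n.p 6 * n.q 1 * n.q 4) • e5 +
      (n.p 1 * n.p 3 * n.q 4 * n.q 5 + n.p 3 * n.p 5 * n.q 1 * n.q 4) • e6 +
      (- n.p 4 * n.p 6 * n.q 1 * n.q 5) • e3 + (- n.p 3 * n.p 6 * n.q 1 * n.q 5) • e4)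
  have hy : l .y = 0 := zsmul_eq_zero_of_abs hD (by
    rw [Exps.det]
    linear_combination (norm := module)
      (n.p 3 * n.p 5 * n.q 4 * n.q 6 - n.p 4 * n.p 6 * n.q 3 * n.q 5) • e1 +
      (- n.p 1 * n.p 3 * n.q 4 * n.q 6) • e5 + (- n.p 1 * n.p 4 * n.q 3 * n.q 5) • e6 +
      (n.p 1 * n.p 4 * n.q 5 * n.q 6) • e3 + (n.p 1 * n.p 3 * n.q 5 * n.q 6) • e4)
  rw [hy, smul_zero, sub_zero] at e2
  have ha := zsmul_eq_zero_of_abs h2 e2
  rw [ha, hy, smul_zero, add_zero, zero_sub] at e0
  have hx := neg_eq_zero.1 (zsmul_eq_zero_of_abs h0 e0)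
  rw [hx, smul_zero, add_zero] at e7
  have ht := zsmul_eq_zero_of_abs h7 e7
  intro g
  cases g <;> assumption

/-- a nontrivial solution prevents perfectness -/
theorem not_perfect {M : Type*} [AddCommGroup M] {l : Gen → M}
    (h : AddSat n l) (hp : commutator (PW n) = ⊤) (g : Gen) : l g = 0 := by
  have h1 : commutator (PW n) ≤ h.sat.hom.ker := Abelianization.commutator_subset_ker _
  rw [hp] at h1
  have h2 : h.sat.hom (PresentedGroup.of g) = 1 := h1 (Subgroup.mem_top _)
  rw [Sat.hom_of] at h2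
  exact h2

theorem zmod_one_ne {m : ℤ} (hm : |m| ≠ 1) : (1 : ZMod m.natAbs) ≠ 0 := by
  have h2 : m.natAbs ≠ 1 := by
    intro h3
    apply hm
    rw [Int.abs_eq_natAbs, h3]
    rfl
  have h4 : Nontrivial (ZMod m.natAbs) := by
    rw [ZMod.nontrivial_iff]
    exact h2
  exact one_ne_zero

theorem zmod_cast (m : ℤ) : ((m : ℤ) : ZMod m.natAbs) = 0 :=
  (ZMod.intCast_zmod_eq_zero_iff_dvd _ _).mpr (Int.natAbs_dvd.mpr dvd_rfl)

theorem sq_of_abs {m : ℤ} (hm : |m| = 1) : m * m = 1 := by
  rcases (abs_eq zero_le_one).mp hm with rfl | rfl <;> rfl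

/-- an assignment of the letters -/
def asg {M : Type*} (a b x s c d y t : M) : Gen → M
  | .a => a | .b => b | .x => x | .s => s | .c => c | .d => d | .y => y | .t => t

/-- the first homology vanishes iff the relations are unimodular -/
theorem perfect_iff : commutator (PW n) = ⊤ ↔
    |n.p 0| = 1 ∧ |n.p 2| = 1 ∧ |n.q 7| = 1 ∧ |n.det| = 1 := by
  constructor
  · intro h
    have h7 : |n.q 7| = 1 := by
      by_contra hk
      have := not_perfect (n := n) (M := ZMod (n.q 7).natAbs) (l := asg 0 0 0 0 0 0 0 1)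
        ⟨by simp [asg], by simp [asg], by simp [asg], by simp [asg], by simp [asg],
          by simp [asg], by simp [asg], by simpa [asg] using zmod_cast _⟩ h .t
      exact zmod_one_ne hk this
    have c : ∀ (ℓ : ℕ) (m : ℤ), |m| = 1 → (m : ZMod ℓ) * m = 1 := by
      intro ℓ m hm
      have := sq_of_abs hm
      exact_mod_cast congrArg (Int.cast : ℤ → ZMod ℓ) this
    have h0 : |n.p 0| = 1 := by
      by_contra hk
      have := not_perfect (n := n) (M := ZMod (n.p 0).natAbs)
        (l := asg 0 0 1 0 0 0 0 (-(n.q 7 : ZMod (n.p 0).natAbs) * n.p 7))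
        ⟨by simpa [asg] using zmod_cast _, by simp [asg], by simp [asg], by simp [asg],
          by simp [asg], by simp [asg], by simp [asg], by
          simp only [asg, zsmul_eq_mul]
          linear_combination (-(n.p 7 : ZMod (n.p 0).natAbs)) * c _ _ h7⟩ h .x
      exact zmod_one_ne hk this
    have h2 : |n.p 2| = 1 := by
      by_contra hk
      have := not_perfect (n := n) (M := ZMod (n.p 2).natAbs)
        (l := asg 1 0 1 0 0 0 0 (-(n.q 7 : ZMod (n.p 2).natAbs) * n.p 7))
        ⟨by simp [asg], by simp [asg], by simpa [asg] using zmod_cast _, by simp [asg],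
          by simp [asg], by simp [asg], by simp [asg], by
          simp only [asg, zsmul_eq_mul]
          linear_combination (-(n.p 7 : ZMod (n.p 2).natAbs)) * c _ _ h7⟩ h .a
      exact zmod_one_ne hk this
    refine ⟨h0, h2, h7, ?_⟩
    by_contra hD
    have h2' : n.det.natAbs ≠ 1 := by
      intro h3
      apply hD
      rw [Int.abs_eq_natAbs, h3]
      rfl
    obtain ⟨ℓ, hℓ, hdvd⟩ := Nat.exists_prime_and_dvd h2'
    have := Fact.mk hℓ
    have hdet : ((n.det : ℤ) : ZMod ℓ) = 0 :=
      (ZMod.intCast_zmod_eq_zero_iff_dvd _ _).mpr (Int.natCast_dvd.mpr hdvd)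
    let A : Matrix (Fin 5) (Fin 5) (ZMod ℓ) :=
      !![(n.p 1 : ZMod ℓ), 0, 0, 0, n.q 1; n.p 5, 0, n.q 5, 0, -n.q 5; -n.p 6, 0, 0, n.q 6, 0;
        0, n.p 3, 0, n.q 3, 0; 0, -n.p 4, n.q 4, 0, 0]
    have hA : A.det = 0 := by
      rw [← hdet, Exps.det]
      simp [A, Matrix.det_succ_row_zero, Fin.sum_univ_succ, Fin.succAbove, Matrix.submatrix]
      ring
    obtain ⟨v, hv, hAv⟩ := Matrix.exists_mulVec_eq_zero_iff.mpr hA
    have e1 := congrFun hAv 0
    have e5 := congrFun hAv 1
    have e6 := congrFun hAv 2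
    have e3 := congrFun hAv 3
    have e4 := congrFun hAv 4
    simp only [A, Matrix.mulVec, dotProduct, Fin.sum_univ_five] at e1 e5 e6 e3 e4
    simp at e1 e5 e6 e3 e4
    have hall := not_perfect (n := n) (M := ZMod ℓ)
      (l := asg (n.p 2 * n.q 2 * v 4) (v 0) (n.p 2 * n.q 2 * v 4 + n.p 0 * n.q 0 * v 4) (v 1)
        (v 2) (v 3) (v 4)
        (-(n.q 7 : ZMod ℓ) * n.p 7 * (n.p 2 * n.q 2 * v 4 + n.p 0 * n.q 0 * v 4)))
      ⟨by
          simp only [asg, zsmul_eq_mul]
          linear_combination (-(n.q 0 : ZMod ℓ) * v 4) * c ℓ _ h0,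
        by
          simp only [asg, zsmul_eq_mul]
          linear_combination e1,
        by
          simp only [asg, zsmul_eq_mul]
          linear_combination ((n.q 2 : ZMod ℓ) * v 4) * c ℓ _ h2,
        by
          simp only [asg, zsmul_eq_mul]
          linear_combination e3,
        by
          simp only [asg, zsmul_eq_mul]
          linear_combination e4,
        by
          simp only [asg, zsmul_eq_mul]
          linear_combination e5,
        by
          simp only [asg, zsmul_eq_mul]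
          linear_combination e6,
        by
          simp only [asg, zsmul_eq_mul]
          linear_combination (-(n.p 7 : ZMod ℓ) * (n.p 2 * n.q 2 * v 4 + n.p 0 * n.q 0 * v 4)) *
            c ℓ _ h7⟩ h
    apply hv
    ext k
    match k with
    | 0 => exact hall .b
    | 1 => exact hall .s
    | 2 => exact hall .c
    | 3 => exact hall .d
    | 4 => exact hall .y
  · rintro ⟨h0, h2, h7, hD⟩
    have h1 := ((sat_of n).addSat (Abelianization.of (G := PW n))).trivial hD h0 h2 h7
    have h2 : ∀ g : Gen, PresentedGroup.of g ∈ commutator (PW n) := by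
      intro g
      rw [← Abelianization.ker_of, MonoidHom.mem_ker]
      exact h1 g
    rw [eq_top_iff, ← PresentedGroup.closure_range_of, Subgroup.closure_le]
    rintro _ ⟨g, rfl⟩
    exact h2 g

end Pool.GSQ
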