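import Pool.Agent.Lib.GSQ.ExHom
import Pool.Agent.Lib.GSQ.ExPerfect

/-!
# The explicit groups are infinite
-/

namespace Pool.GSQ

open Function Pool.GSP Monoid

variable (n : Exps)

/-- the free group on `a` and `b` -/
def wAB : F2 →* PW n := f2 (PresentedGroup.of .a) (PresentedGroup.of .b)

/-- the free group on `c`, `d` and `y` -/
def wCDY : Sg F2 →* PW n :=
  f3 (PresentedGroup.of .c) (PresentedGroup.of .d) (PresentedGroup.of .y)

/-- the free group on `x` and `s` -/
def wXS : F2 →* PW n := f2 (PresentedGroup.of .x) (PresentedGroup.of .s)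

/-- the free group on `c` and `d` -/
def wCD : F2 →* PW n := f2 (PresentedGroup.of .c) (PresentedGroup.of .d)

theorem toPin_AB : (toPin n).comp (wAB n) = (o0 n).comp (F0 n) := by
  refine f2_ext ?_ ?_
  · rw [MonoidHom.comp_apply, wAB, f2_true, toPin_of]
    rfl
  · rw [MonoidHom.comp_apply, wAB, f2_false, toPin_of]
    rfl

theorem toPin_CDY : (toPin n).comp (wCDY n) = (o0 n).comp shZ := by
  refine f3_ext ?_ ?_ ?_
  · rw [MonoidHom.comp_apply, wCDY, f3_α, toPin_of]
    rfl
  · rw [MonoidHom.comp_apply, wCDY, f3_β, toPin_of]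
    rfl
  · rw [MonoidHom.comp_apply, wCDY, f3_ξ, toPin_of]
    rfl

theorem toPin_XS : (toPin n).comp (wXS n) = (o1 n).comp (F1 n) := by
  refine f2_ext ?_ ?_
  · rw [MonoidHom.comp_apply, wXS, f2_true, toPin_of]
    rfl
  · rw [MonoidHom.comp_apply, wXS, f2_false, toPin_of]
    rfl

theorem toPin_CD : (toPin n).comp (wCD n) = (o1 n).comp shZ := by
  refine f2_ext ?_ ?_
  · rw [MonoidHom.comp_apply, wCD, f2_true, toPin_of, lt_c]
    rfl
  · rw [MonoidHom.comp_apply, wCD, f2_false, toPin_of, lt_d]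
    rfl

/-- the first brick: `(u, v) ↦ u v` is injective on `F(a, b) × F(c, d, y)` -/
theorem inj0 : Injective fun p : F2 × Sg F2 => wAB n p.1 * wCDY n p.2 := by
  intro p q h
  have h1 : toPin n (wAB n p.1 * wCDY n p.2) = toPin n (wAB n q.1 * wCDY n q.2) :=
    congrArg (toPin n) h
  rw [map_mul, map_mul] at h1
  have e1 : ∀ u, toPin n (wAB n u) = o0 n (F0 n u) := DFunLike.congr_fun (toPin_AB n)
  have e2 : ∀ u, toPin n (wCDY n u) = o0 n (shZ u) := DFunLike.congr_fun (toPin_CDY n)
  rw [e1, e1, e2, e2, ← map_mul, ← map_mul] at h1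
  exact sh_injective (φ0 n) (θ0 n) ((wheel n).of0_injective h1)

/-- the second brick: `(u, v) ↦ u v` is injective on `F(x, s) × F(c, d)` -/
theorem inj1 : Injective fun p : F2 × F2 => wXS n p.1 * wCD n p.2 := by
  intro p q h
  have h1 : toPin n (wXS n p.1 * wCD n p.2) = toPin n (wXS n q.1 * wCD n q.2) :=
    congrArg (toPin n) h
  rw [map_mul, map_mul] at h1
  have e1 : ∀ u, toPin n (wXS n u) = o1 n (F1 n u) := DFunLike.congr_fun (toPin_XS n)
  have e2 : ∀ u, toPin n (wCD n u) = o1 n (shZ u) := DFunLike.congr_fun (toPin_CD n)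
  rw [e1, e1, e2, e2, ← map_mul, ← map_mul] at h1
  exact sh_injective (φ1 n) (θ1 n) ((wheel n).of1_injective h1)

/-- the explicit groups are infinite -/
theorem infinite : Infinite (PW n) :=
  Infinite.of_injective _ (inj0 n)

end Pool.GSQ
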