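import Pool.Agent.Lib.GSQ.ExDef

/-!
# The two surface groups in the explicit group
-/

namespace Pool.GSQ

/-- the letters of the surface group -/
inductive SGen
  | a | b | x | s

/-- the fundamental group of the closed surface of genus two: `[s, x] = [a, b]` -/
abbrev SG : Type := PresentedGroup ({cm (FreeGroup.of SGen.s) (FreeGroup.of SGen.x) *
  (cm (FreeGroup.of SGen.a) (FreeGroup.of SGen.b))⁻¹} : Set (FreeGroup SGen))

/-- homomorphisms out of the surface group -/
def sgHom {G : Type*} [Group G] (a b x s : G) (h : cm s x = cm a b) : SG →* G :=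
  PresentedGroup.toGroup (f := fun g => match g with | .a => a | .b => b | .x => x | .s => s) (by
    rintro w hw
    rw [Set.mem_singleton_iff] at hw
    subst hw
    rw [map_mul, map_inv, map_cm, map_cm]
    simp only [FreeGroup.lift_apply_of]
    rw [h, mul_inv_cancel])

@[simp] theorem sgHom_a {G : Type*} [Group G] (a b x s : G) (h : cm s x = cm a b) :
    sgHom a b x s h (PresentedGroup.of .a) = a := PresentedGroup.toGroup.of _

@[simp] theorem sgHom_b {G : Type*} [Group G] (a b x s : G) (h : cm s x = cm a b) :
    sgHom a b x s h (PresentedGroup.of .b) = b := PresentedGroup.toGroup.of _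

@[simp] theorem sgHom_x {G : Type*} [Group G] (a b x s : G) (h : cm s x = cm a b) :
    sgHom a b x s h (PresentedGroup.of .x) = x := PresentedGroup.toGroup.of _

@[simp] theorem sgHom_s {G : Type*} [Group G] (a b x s : G) (h : cm s x = cm a b) :
    sgHom a b x s h (PresentedGroup.of .s) = s := PresentedGroup.toGroup.of _

variable (n : Exps)

theorem rel1 : cm (PresentedGroup.of .s : PW n) (PresentedGroup.of .x) =
    cm (PresentedGroup.of .a) (PresentedGroup.of .b) :=
  sat_of n (_, _) (List.mem_cons_self)

theorem rel2 : cm (PresentedGroup.of .t : PW n) (PresentedGroup.of .y) =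
    cm (PresentedGroup.of .c) (PresentedGroup.of .d) :=
  sat_of n (_, _) (List.mem_cons_of_mem _ List.mem_cons_self)

/-- the group of the first surface, letters to `a, b, x, s` -/
def surfF : SG →* PW n := sgHom (PresentedGroup.of .a) (PresentedGroup.of .b)
  (PresentedGroup.of .x) (PresentedGroup.of .s) (rel1 n)

/-- the group of the second surface, letters to `c, d, y, t` -/
def surfS : SG →* PW n := sgHom (PresentedGroup.of .c) (PresentedGroup.of .d)
  (PresentedGroup.of .y) (PresentedGroup.of .t) (rel2 n)

end Pool.GSQ
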