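import Pool.Agent.Lib.GSQ.ExMain
import Pool.Agent.Lib.GSQ.Surf
import Pool.Agent.Lib.GSP.WheelRow

/-!
# The surface groups of the two factors in the explicit groups
-/

namespace Pool.GSQ

open Function Pool.GSP Monoid

/-- the free group on `a`, `b` in the surface group -/
def sgι : F2 →* SG := f2 (PresentedGroup.of .a) (PresentedGroup.of .b)

/-- the relation of the surface group -/
theorem sg_rel : cm (PresentedGroup.of .s : SG) (PresentedGroup.of .x) =
    cm (PresentedGroup.of .a) (PresentedGroup.of .b) := by
  have h : PresentedGroup.mk ({cm (FreeGroup.of SGen.s) (FreeGroup.of SGen.x) *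
      (cm (FreeGroup.of SGen.a) (FreeGroup.of SGen.b))⁻¹} : Set (FreeGroup SGen))
      (cm (FreeGroup.of SGen.s) (FreeGroup.of SGen.x) *
      (cm (FreeGroup.of SGen.a) (FreeGroup.of SGen.b))⁻¹) = 1 :=
    (PresentedGroup.mk_eq_one_iff).2 (Subgroup.subset_normalClosure rfl)
  rw [map_mul, map_inv, mul_inv_eq_one, map_cm, map_cm] at h
  exact h

theorem sgι_δ : sgι δδ = (PresentedGroup.of .s : SG) * PresentedGroup.of .x *
    (PresentedGroup.of .s)⁻¹ * (PresentedGroup.of .x)⁻¹ := by
  have h : sgι δδ = cm (PresentedGroup.of .a) (PresentedGroup.of .b) := by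
    rw [δδ]
    simp only [map_mul, map_inv]
    rw [sgι, f2_true, f2_false]
    rfl
  rw [h, ← sg_rel]
  rfl

theorem sg_gen : Subgroup.closure (Set.range sgι ∪
    {(PresentedGroup.of .x : SG), PresentedGroup.of .s}) = ⊤ := by
  rw [eq_top_iff]
  intro g _
  have h1 : g ∈ Subgroup.closure (Set.range (PresentedGroup.of (rels :=
      ({cm (FreeGroup.of SGen.s) (FreeGroup.of SGen.x) *
        (cm (FreeGroup.of SGen.a) (FreeGroup.of SGen.b))⁻¹} : Set (FreeGroup SGen))))) := by
    rw [PresentedGroup.closure_range_of]; exact Subgroup.mem_top g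
  refine (Subgroup.closure_le _).2 ?_ h1
  rintro _ ⟨l, rfl⟩
  cases l
  · exact Subgroup.subset_closure (Or.inl ⟨fk, f2_true _ _⟩)
  · exact Subgroup.subset_closure (Or.inl ⟨fr, f2_false _ _⟩)
  · exact Subgroup.subset_closure (Or.inr (Or.inl rfl))
  · exact Subgroup.subset_closure (Or.inr (Or.inr rfl))

variable (n : Exps)

/-- the two surface groups are independent in the explicit group -/
theorem inv_surfaces : Pool.GSG.INV (surfF n) (surfS n) := by
  refine Pool.GSG.INV.of_comp (toPin n) ?_
  refine (wheel n).row_column_inv (ι := sgι) (x := PresentedGroup.of .x)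
    (s := PresentedGroup.of .s) sgι_δ sg_gen (ι' := sgι) (y := PresentedGroup.of .x)
    (t := PresentedGroup.of .s) sgι_δ sg_gen ?_ ?_ ?_ ?_ ?_ ?_
  · have h : ((toPin n).comp (surfF n)).comp sgι = (o0 n).comp (F0 n) := by
      refine f2_ext ?_ ?_
      · change toPin n (surfF n (sgι (FreeGroup.of true))) = _
        rw [sgι, f2_true, surfF, sgHom_a, toPin_of]
        rfl
      · change toPin n (surfF n (sgι (FreeGroup.of false))) = _
        rw [sgι, f2_false, surfF, sgHom_b, toPin_of]
        rfl
    exact DFunLike.congr_fun h
  · change toPin n (surfF n (PresentedGroup.of .x)) = _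
    rw [surfF, sgHom_x, toPin_of]
    rfl
  · change toPin n (surfF n (PresentedGroup.of .s)) = _
    rw [surfF, sgHom_s, toPin_of]
    rfl
  · have h : ((toPin n).comp (surfS n)).comp sgι = (o1 n).comp shZ := by
      refine f2_ext ?_ ?_
      · change toPin n (surfS n (sgι (FreeGroup.of true))) = _
        rw [sgι, f2_true, surfS, sgHom_a, toPin_of]
        exact lt_c n
      · change toPin n (surfS n (sgι (FreeGroup.of false))) = _
        rw [sgι, f2_false, surfS, sgHom_b, toPin_of]
        exact lt_d n
    exact DFunLike.congr_fun h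
  · change toPin n (surfS n (PresentedGroup.of .x)) = _
    rw [surfS, sgHom_x, toPin_of]
    rfl
  · change toPin n (surfS n (PresentedGroup.of .s)) = _
    rw [surfS, sgHom_s, toPin_of]
    rfl

/-- **The surface groups of the two factors**: the map of sets `(u, v) ↦ surfF u * surfS v` from the
product of two surface groups of genus two to the explicit group is injective. -/
theorem injective_surfaces : Injective fun p : SG × SG => surfF n p.1 * surfS n p.2 :=
  (inv_surfaces n).injective

/-- the first surface group embeds in the explicit group -/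
theorem surfF_injective : Injective (surfF n) := (inv_surfaces n).left_injective

/-- the second surface group embeds in the explicit group -/
theorem surfS_injective : Injective (surfS n) := (inv_surfaces n).right_injective

end Pool.GSQ
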