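import Pool.Agent.Lib.GSP.WheelDef

/-!
# The groups of the bricks

`Bk φ θ` is the group generated by `Z`, a letter `r` that commutes with `Z`, and a letter `k` with
`k⁻¹ z k = φ z * r ^ θ z`; `k` is the letter `true`, `r` the letter `false`.  It acts on `Z × F2`,
so that `Z` and the free group on `k` and `r` are independent.
-/

namespace Pool.GSQ

open Function Pool.GSP Monoid

/-- the letter that commutes -/
abbrev fr : F2 := FreeGroup.of false
/-- the letter that shears -/
abbrev fk : F2 := FreeGroup.of true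

section

variable {Z : Type} [Group Z] (φ : MulAut Z) (θ : Z →* Zm)

/-! ## The action -/

/-- the inverse of the shearing letter -/
def hE : Equiv.Perm (Z × F2) where
  toFun z := (φ z.1, pw fr (θ z.1) * (fk⁻¹ * z.2))
  invFun z := (φ.symm z.1, fk * ((pw fr (θ (φ.symm z.1)))⁻¹ * z.2))
  left_inv z := by
    refine Prod.ext ?_ ?_
    · simp
    · simp
  right_inv z := by
    refine Prod.ext ?_ ?_
    · simp
    · simp

/-- the commuting letter -/
def rE (Z : Type) : Equiv.Perm (Z × F2) := Equiv.prodCongr (Equiv.refl Z) (Equiv.mulLeft fr)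

/-- the group `Z` -/
def pZ : Z →* Equiv.Perm (Z × F2) where
  toFun z := Equiv.prodCongr (Equiv.mulLeft z) (Equiv.refl F2)
  map_one' := by
    ext z
    · simp
    · simp
  map_mul' z z' := by
    refine Equiv.ext fun p => ?_
    refine Prod.ext ?_ ?_
    · exact mul_assoc z z' p.1
    · rfl

/-- the free group of the two letters -/
def pF : F2 →* Equiv.Perm (Z × F2) := FreeGroup.lift (fun b => bif b then (hE φ θ)⁻¹ else rE Z)

theorem pF_k : pF φ θ fk = (hE φ θ)⁻¹ := by simp [pF]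

theorem pF_r : pF φ θ fr = rE Z := by simp [pF]

theorem pZ_apply (z : Z) (p : Z × F2) : pZ z p = (z * p.1, p.2) := rfl

theorem rE_apply (Z : Type) (p : Z × F2) : rE Z p = (p.1, fr * p.2) := rfl

theorem hE_apply (p : Z × F2) : hE φ θ p = (φ p.1, pw fr (θ p.1) * (fk⁻¹ * p.2)) := rfl

theorem hE_symm_apply (p : Z × F2) :
    (hE φ θ)⁻¹ p = (φ.symm p.1, fk * ((pw fr (θ (φ.symm p.1)))⁻¹ * p.2)) := rfl

theorem pF_apply_one (v w : F2) : pF φ θ v (1, w) = (1, v * w) := by
  have h1 : ∀ w, pF φ θ fk (1, w) = (1, fk * w) := by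
    intro w
    rw [pF_k, hE_symm_apply]
    simp
  have h2 : ∀ w, pF φ θ fr (1, w) = (1, fr * w) := by
    intro w
    rw [pF_r, rE_apply]
  have h3 : ∀ (b : Bool) w, pF φ θ (FreeGroup.of b) (1, w) = (1, FreeGroup.of b * w) := by
    intro b w
    cases b
    · exact h2 w
    · exact h1 w
  have h4 : ∀ (b : Bool) w, pF φ θ (FreeGroup.of b)⁻¹ (1, w) = (1, (FreeGroup.of b)⁻¹ * w) := by
    intro b w
    rw [map_inv, Equiv.Perm.inv_eq_iff_eq, h3, mul_inv_cancel_left]
  induction v using FreeGroup.induction_on generalizing w with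
  | C1 => simp
  | of b => exact h3 b w
  | inv_of b _ => exact h4 b w
  | mul v v' h h' => rw [map_mul, Equiv.Perm.mul_apply, h', h, mul_assoc]

theorem ev (z : Z) (w : F2) : (pZ z * pF φ θ w) (1, 1) = (z, w) := by
  rw [Equiv.Perm.mul_apply, pF_apply_one, pZ_apply]
  simp

theorem pF_pw (n : Zm) (p : Z × F2) : pF φ θ (pw fr n) p = (p.1, pw fr n * p.2) := by
  have h : ∀ k : ℤ, ∀ p : Z × F2, ((rE Z) ^ k) p = (p.1, fr ^ k * p.2) := by
    intro k
    induction k using Int.induction_on with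
    | zero => intro p; simp
    | succ k ih =>
      intro p
      rw [zpow_add_one, Equiv.Perm.mul_apply, rE_apply, ih, zpow_add_one, mul_assoc]
    | pred k ih =>
      intro p
      rw [zpow_sub_one, Equiv.Perm.mul_apply]
      have h1 : (rE Z)⁻¹ p = (p.1, fr⁻¹ * p.2) := rfl
      rw [h1, ih, zpow_sub_one, mul_assoc]
  rw [pw_apply, map_zpow, pF_r, h]

theorem p_r (z : Z) : pF φ θ fr * pZ z = pZ z * pF φ θ fr := by
  rw [pF_r]
  rfl

theorem p_k (z : Z) : (pF φ θ fk)⁻¹ * pZ z * pF φ θ fk = pZ (φ z) * pF φ θ (pw fr (θ z)) := by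
  refine Equiv.ext fun p => ?_
  rw [pF_k, inv_inv, Equiv.Perm.mul_apply, Equiv.Perm.mul_apply, Equiv.Perm.mul_apply, pF_pw,
    hE_symm_apply, pZ_apply, hE_apply, pZ_apply]
  refine Prod.ext ?_ ?_
  · simp
  · simp only [map_mul]
    group

/-! ## The group -/

/-- the relators -/
inductive BRel : Coprod Z F2 → Coprod Z F2 → Prop
  | r (z : Z) : BRel (Coprod.inr fr * Coprod.inl z) (Coprod.inl z * Coprod.inr fr)
  | k (z : Z) : BRel ((Coprod.inr fk)⁻¹ * Coprod.inl z * Coprod.inr fk)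
      (Coprod.inl (φ z) * Coprod.inr (pw fr (θ z)))

/-- the relators as a set -/
def brels : Set (Coprod Z F2) := {r | ∃ u v, BRel φ θ u v ∧ r = u * v⁻¹}

/-- the group of the brick -/
def Bk : Type := Coprod Z F2 ⧸ Subgroup.normalClosure (brels φ θ)

instance : Group (Bk φ θ) := QuotientGroup.Quotient.group (Subgroup.normalClosure (brels φ θ))

/-- the quotient map -/
def bq : Coprod Z F2 →* Bk φ θ := QuotientGroup.mk' (Subgroup.normalClosure (brels φ θ))

variable {φ θ} in
/-- the group `Z` in the brick -/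
def shZ : Z →* Bk φ θ := (bq φ θ).comp Coprod.inl

/-- the two letters of the brick -/
def shF : F2 →* Bk φ θ := (bq φ θ).comp Coprod.inr

variable {φ θ}

theorem bq_eq {u v : Coprod Z F2} (h : BRel φ θ u v) : bq φ θ u = bq φ θ v := by
  have h1 : bq φ θ (u * v⁻¹) = 1 :=
    (QuotientGroup.eq_one_iff (N := Subgroup.normalClosure (brels φ θ)) (u * v⁻¹)).2
      (Subgroup.subset_normalClosure ⟨u, v, h, rfl⟩)
  rw [map_mul, map_inv, mul_inv_eq_one] at h1
  exact h1

/-- homomorphisms out of the brick -/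
def bLift {H : Type*} [Group H] (i : Z →* H) (j : F2 →* H)
    (h1 : ∀ z, j fr * i z = i z * j fr)
    (h2 : ∀ z, (j fk)⁻¹ * i z * j fk = i (φ z) * j (pw fr (θ z))) : Bk φ θ →* H :=
  QuotientGroup.lift (Subgroup.normalClosure (brels φ θ)) (Coprod.lift i j) (by
    intro x hx
    have h3 : brels φ θ ⊆ (Coprod.lift i j).ker := by
      rintro r ⟨u, v, huv, rfl⟩
      rw [SetLike.mem_coe, MonoidHom.mem_ker, map_mul, map_inv, mul_inv_eq_one]
      cases huv
      · simpa using h1 _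
      · simpa using h2 _
    exact Subgroup.normalClosure_le_normal h3 hx)

theorem bLift_shZ {H : Type*} [Group H] (i : Z →* H) (j : F2 →* H)
    (h1 : ∀ z, j fr * i z = i z * j fr)
    (h2 : ∀ z, (j fk)⁻¹ * i z * j fk = i (φ z) * j (pw fr (θ z))) (z : Z) :
    bLift i j h1 h2 (shZ z) = i z := by
  change Coprod.lift i j (Coprod.inl z) = i z
  simp

theorem bLift_shF {H : Type*} [Group H] (i : Z →* H) (j : F2 →* H)
    (h1 : ∀ z, j fr * i z = i z * j fr)
    (h2 : ∀ z, (j fk)⁻¹ * i z * j fk = i (φ z) * j (pw fr (θ z))) (w : F2) :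
    bLift i j h1 h2 (shF φ θ w) = j w := by
  change Coprod.lift i j (Coprod.inr w) = j w
  simp

theorem bk_ext {H : Type*} [Group H] {f g : Bk φ θ →* H} (h1 : ∀ z, f (shZ z) = g (shZ z))
    (h2 : ∀ w, f (shF φ θ w) = g (shF φ θ w)) : f = g := by
  refine QuotientGroup.monoidHom_ext _ ?_
  refine Coprod.hom_ext (MonoidHom.ext fun z => h1 z) (MonoidHom.ext fun w => h2 w)

variable (φ θ)

/-- the action of the brick -/
def toPerm : Bk φ θ →* Equiv.Perm (Z × F2) := bLift pZ (pF φ θ) (p_r φ θ) (p_k φ θ)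

theorem sh_injective : Injective fun p : F2 × Z => shF φ θ p.1 * shZ p.2 := by
  intro p q h
  have h0 : shF φ θ p.1 * shZ p.2 = shF φ θ q.1 * shZ q.2 := h
  have h1 := congrArg (toPerm φ θ) h0
  rw [map_mul, map_mul, toPerm, bLift_shZ, bLift_shF, bLift_shZ, bLift_shF] at h1
  have h2 := congrArg (fun g => g⁻¹) h1
  simp only [mul_inv_rev, ← map_inv] at h2
  have h3 := congrArg (fun g : Equiv.Perm (Z × F2) => g (1, 1)) h2
  simp only [ev] at h3
  have h4 := congrArg Prod.fst h3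
  have h5 := congrArg Prod.snd h3
  exact Prod.ext (inv_injective h5) (inv_injective h4)

theorem sh_r (z : Z) : shF φ θ fr * shZ z = shZ z * shF φ θ fr := by
  have h := bq_eq (BRel.r (φ := φ) (θ := θ) z)
  simp only [map_mul] at h
  exact h

theorem sh_k (z : Z) : (shF φ θ fk)⁻¹ * shZ z * shF φ θ fk = shZ (φ z) * shF φ θ (pw fr (θ z)) := by
  have h := bq_eq (BRel.k (φ := φ) (θ := θ) z)
  simp only [map_mul, map_inv] at h
  exact h

theorem comm_of {G : Type*} [Group G] {g r z z' : G} (h1 : g⁻¹ * z * g = z')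
    (h2 : r * z' = z' * r) (h3 : r * z = z * r) :
    g * r * g⁻¹ * r⁻¹ * z = z * (g * r * g⁻¹ * r⁻¹) := by
  have h4 : z = g * z' * g⁻¹ := by rw [← h1]; group
  have h5 : r⁻¹ * z = z * r⁻¹ := by
    rw [inv_mul_eq_iff_eq_mul, ← mul_assoc, h3, mul_inv_cancel_right]
  calc g * r * g⁻¹ * r⁻¹ * z = g * r * g⁻¹ * (r⁻¹ * z) := by group
    _ = g * r * g⁻¹ * z * r⁻¹ := by rw [h5]; group
    _ = g * (r * z') * g⁻¹ * r⁻¹ := by nth_rewrite 1 [h4]; group
    _ = z * (g * r * g⁻¹ * r⁻¹) := by rw [h2]; nth_rewrite 1 [h4]; group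

theorem sh_r' (z : Z) (n : Zm) : shF φ θ fr * (shZ z * shF φ θ (pw fr n)) =
    shZ z * shF φ θ (pw fr n) * shF φ θ fr := by
  rw [← mul_assoc, sh_r, mul_assoc, mul_assoc, ← map_mul, ← map_mul, pw_apply,
    (Commute.refl fr).zpow_right n.toAdd]

/-- the commutator of the two letters commutes with `Z` -/
theorem sh_cm (z : Z) : shF φ θ (fk * fr * fk⁻¹ * fr⁻¹) * shZ z =
    shZ z * shF φ θ (fk * fr * fk⁻¹ * fr⁻¹) := by
  simp only [map_mul, map_inv]
  exact comm_of (sh_k φ θ z) (sh_r' φ θ _ _) (sh_r φ θ z)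

/-- the inverse commutator of the two letters commutes with `Z` -/
theorem sh_cm' (z : Z) : shF φ θ (fr * fk * fr⁻¹ * fk⁻¹) * shZ z =
    shZ z * shF φ θ (fr * fk * fr⁻¹ * fk⁻¹) := by
  have h : (fr * fk * fr⁻¹ * fk⁻¹ : F2) = (fk * fr * fk⁻¹ * fr⁻¹)⁻¹ := by group
  rw [h, map_inv, inv_mul_eq_iff_eq_mul, ← mul_assoc, sh_cm, mul_inv_cancel_right]

/-- letters fixed by the shear commute with `k` -/
theorem sh_fix {z : Z} (h1 : φ z = z) (h2 : θ z = 1) (w : F2) :
    shF φ θ w * shZ z = shZ z * shF φ θ w := by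
  have hk : shF φ θ fk * shZ z = shZ z * shF φ θ fk := by
    have h := sh_k φ θ z
    rw [h1, h2, map_one, map_one, mul_one, mul_assoc, inv_mul_eq_iff_eq_mul] at h
    exact h.symm
  induction w using FreeGroup.induction_on with
  | C1 => simp
  | of b =>
    cases b
    · exact sh_r φ θ z
    · exact hk
  | inv_of b _ =>
    have : ∀ g : Bk φ θ, g * shZ z = shZ z * g → g⁻¹ * shZ z = shZ z * g⁻¹ := by
      intro g hg
      rw [inv_mul_eq_iff_eq_mul, ← mul_assoc, hg, mul_inv_cancel_right]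
    rw [map_inv]
    cases b
    · exact this _ (sh_r φ θ z)
    · exact this _ hk
  | mul v v' h h' => rw [map_mul, mul_assoc, h', ← mul_assoc, h, mul_assoc]

end

end Pool.GSQ
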