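import Pool.Agent.Lib.GSQ.Auts
import Pool.Agent.Lib.GSQ.Shear
import Pool.Agent.Lib.GSQ.ExDef
import Pool.Agent.Lib.GSP.WheelHom

/-!
# The explicit groups as pinwheels
-/

namespace Pool.GSQ

open Function Pool.GSP Monoid

/-- elements of the infinite cyclic group -/
abbrev zz (k : ℤ) : Zm := Multiplicative.ofAdd k

/-- the commutator of the two letters -/
def δδ : F2 := fk * fr * fk⁻¹ * fr⁻¹

theorem δδ_ne_one : δδ ≠ 1 := by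
  intro h
  have h1 := congrArg (FreeGroup.lift (fun b : Bool => bif b then
    (Equiv.swap (0 : Fin 3) 1 : Equiv.Perm (Fin 3)) else Equiv.swap (1 : Fin 3) 2)) h
  simp only [δδ, map_mul, map_inv, FreeGroup.lift_apply_of, cond_true, cond_false, map_one] at h1
  revert h1
  decide

theorem pw_δδ_injective : Injective (pw δδ) := by
  rw [injective_iff_map_eq_one]
  intro k hk
  rw [pw_apply] at hk
  have h1 : k.toAdd = 0 := by
    by_contra h2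
    exact δδ_ne_one ((IsMulTorsionFree.zpow_eq_one_iff_left h2).1 hk)
  exact h1

variable (n : Exps)

/-- the automorphism of the first brick -/
def φ0 : MulAut (Sg F2) := aT (n.q 5) * aD (-n.q 6)

/-- the shear of the first brick -/
def θ0 : Sg F2 →* Zm := f3 (zz (n.p 6 + n.q 6 * n.p 5)) (zz (-n.p 5)) 1

/-- the automorphism of the second brick -/
def φ1 : MulAut F2 := aD2 (n.q 3) * aE2 (-n.q 4)

/-- the shear of the second brick -/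
def θ1 : F2 →* Zm := f2 (zz (n.p 3)) (zz (n.p 4 - n.q 4 * n.p 3))

/-- the automorphism of the wall of `t` -/
def ψ0 : MulAut (Sg F2) := aT (n.p 0) * aD (n.p 1) * aE (-n.p 2)

/-- the shear of the wall of `t` -/
def η0 : Sg F2 →* Zm := f3 (zz (n.q 1 - n.q 0 * n.p 1))
  (zz (-n.q 0 + n.q 2 - n.p 2 * (n.q 1 - n.q 0 * n.p 1))) 1

/-- the automorphism of the wall of `s` -/
def ψ1 : MulAut F2 := aD2 (n.q 7)

/-- the shear of the wall of `s` -/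
def η1 : F2 →* Zm := f2 (zz (n.p 7)) 1

theorem φ0_apply (z : Sg F2) : φ0 n z = TT (n.q 5) (DD (-n.q 6) z) := rfl
theorem φ1_apply (z : F2) : φ1 n z = D2 (n.q 3) (E2 (-n.q 4) z) := rfl
theorem ψ0_apply (z : Sg F2) : ψ0 n z = TT (n.p 0) (DD (n.p 1) (EA (-n.p 2) z)) := rfl
theorem ψ1_apply (z : F2) : ψ1 n z = D2 (n.q 7) z := rfl

theorem inl_δδ_mul : (Coprod.inl δδ * xS : Sg F2) = bd := by
  rw [δδ, bd]
  simp only [map_mul, map_inv]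

theorem φ0_fix : φ0 n (cβ * bd * cβ⁻¹) = cβ * bd * cβ⁻¹ := by
  rw [φ0_apply]
  simp only [map_mul, map_inv, DD_β, DD_bd, TT_β]
  have h : TT (n.q 5) bd = ee cα cβ cξ ^ n.q 5 * bd * (ee cα cβ cξ ^ n.q 5)⁻¹ := by
    rw [← TT_bd, mul_inv_cancel_right]
  rw [h, zpow_neg]
  group

theorem θ0_bd : θ0 n bd = 1 := by
  rw [bd]
  simp only [map_mul, map_inv, θ0, f3_α, f3_β, f3_ξ]
  rw [mul_one, mul_inv_eq_one, mul_inv_eq_iff_eq_mul, mul_comm]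

theorem φ0_x : φ0 n cξ = cξ := by rw [φ0_apply, DD_ξ, TT_ξ]

theorem θ0_x : θ0 n cξ = 1 := f3_ξ _ _ _

theorem φ1_δ : φ1 n δδ = δδ := by
  rw [φ1_apply, E2_cm (-n.q 4) δδ rfl, D2_cm (n.q 3) δδ rfl]

theorem θ1_δ : θ1 n δδ = 1 := by
  rw [δδ]
  simp only [map_mul, map_inv]
  rw [mul_inv_eq_one, mul_inv_eq_iff_eq_mul, mul_comm]

theorem ψ0_bd : ψ0 n bd * ee cα cβ cξ ^ n.p 0 = ee cα cβ cξ ^ n.p 0 * bd := by
  rw [ψ0_apply, EA_bd, DD_bd, TT_bd]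

theorem η0_bd : η0 n bd = 1 := by
  rw [bd]
  simp only [map_mul, map_inv, η0, f3_α, f3_β, f3_ξ]
  rw [mul_one, mul_inv_eq_one, mul_inv_eq_iff_eq_mul, mul_comm]

/-- gluing of the wall of `t` -/
def Ψ0 : NN (pw (1 : MulAut F2)) ≃* NN (pw (1 : MulAut F2)) :=
  (nnEquiv.trans (shear (ψ0 n) (η0 n))).trans nnEquiv.symm

theorem Ψ0_mk (z : Sg F2) (k : Zm) : Ψ0 n ⟨z, k⟩ = ⟨ψ0 n z, η0 n z * k⟩ := rfl

/-- gluing of the wall of `s` -/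
def Φ0 : F2 × Zm ≃* F2 × Zm := shear (ψ1 n) (η1 n)

theorem Φ0_mk (z : F2) (k : Zm) : Φ0 n (z, k) = (ψ1 n z, η1 n z * k) := rfl

theorem comm_conj {G : Type*} [Group G] {g h : G} (h1 : g * h = h * g) : g * h * g⁻¹ = h := by
  rw [h1, mul_inv_cancel_right]

/-- the pinwheel data of the explicit group -/
def wheel : Wheel F2 F2 (Bk (φ0 n) (θ0 n)) (Bk (φ1 n) (θ1 n)) where
  δ := δδ
  δ' := δδ
  hδ := pw_δδ_injective
  hδ' := pw_δδ_injective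
  μ := 1
  ν := 1
  ν' := 1
  hμ := rfl
  hν := rfl
  hν' := rfl
  f := shF (φ0 n) (θ0 n)
  f' := (MulAut.conj (shZ cβ)⁻¹).toMonoidHom.comp (shF (φ0 n) (θ0 n))
  g := shZ
  p := shF (φ1 n) (θ1 n)
  q := shZ
  ind := sh_injective _ _
  ind' := by
    intro z z' h
    have h1 : (shZ cβ)⁻¹ * shF (φ0 n) (θ0 n) z.1 * ((shZ cβ)⁻¹)⁻¹ * shZ z.2 =
      (shZ cβ)⁻¹ * shF (φ0 n) (θ0 n) z'.1 * ((shZ cβ)⁻¹)⁻¹ * shZ z'.2 := h
    rw [inv_inv, mul_assoc, mul_assoc, mul_assoc, mul_assoc, mul_right_inj, ← map_mul,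
      ← map_mul] at h1
    have h2 := sh_injective (φ0 n) (θ0 n) (a₁ := (z.1, cβ * z.2)) (a₂ := (z'.1, cβ * z'.2)) h1
    have h3 := congrArg Prod.fst h2
    have h4 : cβ * z.2 = cβ * z'.2 := congrArg Prod.snd h2
    exact Prod.ext h3 (mul_left_cancel h4)
  ind1 := sh_injective _ _
  ff' := by
    have h := sh_cm (φ0 n) (θ0 n) cβ
    change (shZ cβ)⁻¹ * shF (φ0 n) (θ0 n) δδ * ((shZ cβ)⁻¹)⁻¹ = shF (φ0 n) (θ0 n) δδ
    rw [inv_inv, mul_assoc, δδ, h, inv_mul_cancel_left]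
  actB b := comm_conj (sh_cm (φ0 n) (θ0 n) (Coprod.inl b))
  actY := sh_cm (φ0 n) (θ0 n) xS
  actA a := comm_conj (sh_fix (φ0 n) (θ0 n) (φ0_x n) (θ0_x n) a).symm
  actA' a := by
    change shZ (Coprod.inl δδ * xS) * ((shZ cβ)⁻¹ * shF (φ0 n) (θ0 n) a * ((shZ cβ)⁻¹)⁻¹) *
      (shZ (Coprod.inl δδ * xS))⁻¹ = (shZ cβ)⁻¹ * shF (φ0 n) (θ0 n) a * ((shZ cβ)⁻¹)⁻¹
    rw [inl_δδ_mul, inv_inv]
    have h : shF (φ0 n) (θ0 n) a * (shZ cβ * shZ bd * (shZ cβ)⁻¹) =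
        shZ cβ * shZ bd * (shZ cβ)⁻¹ * shF (φ0 n) (θ0 n) a := by
      rw [← map_inv, ← map_mul, ← map_mul]
      refine sh_fix (φ0 n) (θ0 n) (φ0_fix n) ?_ a
      rw [map_mul, map_mul, θ0_bd, mul_one, map_inv, mul_inv_cancel]
    calc shZ bd * ((shZ cβ)⁻¹ * shF (φ0 n) (θ0 n) a * shZ cβ) * (shZ bd)⁻¹
        = (shZ cβ)⁻¹ * (shZ cβ * shZ bd * (shZ cβ)⁻¹ * shF (φ0 n) (θ0 n) a) * shZ cβ *
          (shZ bd)⁻¹ := by group
      _ = (shZ cβ)⁻¹ * shF (φ0 n) (θ0 n) a * shZ cβ := by rw [← h]; group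
  act1 b := comm_conj (sh_cm' (φ1 n) (θ1 n) b)
  act1' a := (sh_fix (φ1 n) (θ1 n) (φ1_δ n) (θ1_δ n) a).symm
  Ψ := Ψ0 n
  Φ := Φ0 n
  w := ⟨ee cα cβ cξ ^ n.p 0, zz (n.q 0)⟩
  Ψx := by
    change Ψ0 n ⟨xS, 1⟩ = ⟨xS, 1⟩
    rw [Ψ0_mk, ψ0_apply]
    have h1 : EA (-n.p 2) xS = xS := EA_ξ _
    have h2 : DD (n.p 1) xS = xS := DD_ξ _
    have h3 : TT (n.p 0) xS = xS := TT_ξ _
    have h4 : η0 n xS = 1 := f3_ξ _ _ _
    rw [h1, h2, h3, h4, one_mul]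
  Ψy := by
    change Ψ0 n ⟨1, Multiplicative.ofAdd 1⟩ = ⟨1, Multiplicative.ofAdd 1⟩
    rw [Ψ0_mk, map_one, map_one, one_mul]
  Ψw := by
    change Ψ0 n (SemidirectProduct.inl (Coprod.inl δδ * xS)) * _ =
      _ * SemidirectProduct.inl (Coprod.inl δδ * xS)
    rw [inl_δδ_mul]
    apply nnEquiv.injective
    rw [map_mul nnEquiv, map_mul nnEquiv]
    change (ψ0 n bd, η0 n bd * 1) * (ee cα cβ cξ ^ n.p 0, zz (n.q 0)) =
      (ee cα cβ cξ ^ n.p 0, zz (n.q 0)) * (bd, 1)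
    rw [Prod.mk_mul_mk, Prod.mk_mul_mk, ψ0_bd, η0_bd, mul_one, one_mul, mul_one]
  wy := by
    apply nnEquiv.injective
    rw [map_mul nnEquiv, map_mul nnEquiv]
    change ((1 : Sg F2), Multiplicative.ofAdd (1 : ℤ)) * (ee cα cβ cξ ^ n.p 0, zz (n.q 0)) =
      (ee cα cβ cξ ^ n.p 0, zz (n.q 0)) * (1, Multiplicative.ofAdd 1)
    rw [Prod.mk_mul_mk, Prod.mk_mul_mk, mul_one, one_mul, mul_comm]
  Φx := by
    rw [Φ0_mk, map_one, map_one, one_mul]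
  Φδ := by
    rw [Φ0_mk, ψ1_apply]
    have h1 : D2 (n.q 7) cmF = cmF := by
      have h2 : cmF = δδ⁻¹ := by rw [cmF, δδ]; group
      rw [h2, map_inv, D2_cm (n.q 7) δδ rfl]
    have h3 : η1 n cmF = 1 := by
      rw [cmF]
      simp only [map_mul, map_inv]
      rw [mul_inv_eq_one, mul_inv_eq_iff_eq_mul, mul_comm]
    rw [h1, h3, one_mul]

end Pool.GSQ
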