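import Pool.Agent.Lib.GSQ.Back
import Pool.Agent.Lib.GSQ.ExMain

/-!
# The explicit groups are pinwheel groups
-/

namespace Pool.GSQ

open Function Pool.GSP Monoid

section

variable {G : Type*} [Group G] {n : Exps} {l : Gen → G} (h : Rl n l)

theorem H0_shZ (z : Sg F2) : H0 h (shZ z) = i0 l z := bLift_shZ _ _ _ _ z
theorem H0_shF (w : F2) : H0 h (shF (φ0 n) (θ0 n) w) = j0 l w := bLift_shF _ _ _ _ w
theorem H1_shZ (z : F2) : H1 h (shZ z) = i1 l z := bLift_shZ _ _ _ _ z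
theorem H1_shF (w : F2) : H1 h (shF (φ1 n) (θ1 n) w) = j1 l w := bLift_shF _ _ _ _ w

theorem evN_H (z : Sg F2) (k : ℤ) : (wheel n).evN (H0 h) (H1 h) ⟨z, zz k⟩ =
    k0 l z * l .y ^ k := by
  have h1 : sgLift ((H0 h).comp (wheel n).f) (H1 h ((wheel n).p (FreeGroup.of true))) = k0 l := by
    refine f3_ext ?_ ?_ ?_
    · rw [sgLift_inl, f3_α]
      change H0 h (shF (φ0 n) (θ0 n) fk) = _
      rw [H0_shF, f2_true]
    · rw [sgLift_inl, f3_β]
      change H0 h (shF (φ0 n) (θ0 n) fr) = _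
      rw [H0_shF, f2_false]
    · rw [sgLift_x, f3_ξ]
      change H1 h (shF (φ1 n) (θ1 n) fk) = _
      rw [H1_shF, f2_true]
  change sgLift ((H0 h).comp (wheel n).f) (H1 h ((wheel n).p (FreeGroup.of true))) z *
    pw (H0 h (shZ cξ)) (zz k) = _
  rw [h1, H0_shZ, f3_ξ, pw_apply]
  rfl

theorem evM_H (v : F2) (k : ℤ) : (wheel n).evM (H0 h) (H1 h) (l .t) (v, zz k) =
    f2 (l .y) (l .t) v * l .x ^ k := by
  have h1 : FreeGroup.lift (fun b => bif b then H0 h ((wheel n).g xS) else l .t) =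
      f2 (l .y) (l .t) := by
    refine f2_ext ?_ ?_
    · rw [FreeGroup.lift_apply_of, f2_true]
      change H0 h (shZ cξ) = _
      rw [H0_shZ, f3_ξ]
    · rw [FreeGroup.lift_apply_of, f2_false]
      rfl
  change FreeGroup.lift (fun b => bif b then H0 h ((wheel n).g xS) else l .t) v *
    pw (H1 h (shF (φ1 n) (θ1 n) fk)) (zz k) = _
  rw [h1, H1_shF, f2_true, pw_apply]
  rfl

theorem Rl.dad (h : Rl n l) : (l .d)⁻¹ * l .a * l .d = l .a * (uu l ^ n.q 5 * l .b ^ n.p 5) := by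
  have h0 := h.ad
  have h1 : (uu l ^ n.q 5 * l .b ^ n.p 5) = (l .a)⁻¹ * (l .d)⁻¹ * l .a * l .d := by
    have h2 : (uu l ^ n.q 5 * l .b ^ n.p 5)⁻¹ = (l .d)⁻¹ * ((l .a)⁻¹ * l .d * l .a) := by
      rw [h0, inv_mul_cancel_left]
    rw [← inv_inj, h2]
    group
  rw [h1]
  group

theorem Rl.rA (h : Rl n l) (v : F2) : (l .t)⁻¹ * ((l .d)⁻¹ * j0 l v * l .d) * l .t =
    k0 l (ψ0 n (Coprod.inl v)) * pw (l .y) (η0 n (Coprod.inl v)) := by
  have hya : Commute (l .y) (l .a) := (of_cm h.ay).symm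
  have hyb : Commute (l .y) (l .b) := (of_cm h.by').symm
  have hye : Commute (l .y) (ew l) := by
    have := h.y_comm (ee cα cβ cξ)
    rwa [f3_ee] at this
  have e1 : (MulAut.conj (l .t)⁻¹).toMonoidHom.comp
      ((MulAut.conj (l .d)⁻¹).toMonoidHom.comp (j0 l)) =
      (rhom (k0 l) (l .y) h.y_comm (ψ0 n).toMonoidHom (η0 n)).comp Coprod.inl := by
    refine f2_ext' (n.p 2) ?_ ?_
    · change (l .t)⁻¹ * ((l .d)⁻¹ * j0 l fk * ((l .d)⁻¹)⁻¹) * ((l .t)⁻¹)⁻¹ =
        k0 l (ψ0 n cα) * pw (l .y) (η0 n cα)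
      have e2 : ψ0 n cα = ee cα cβ cξ ^ n.p 0 * cα * ee cα cβ cξ ^ (-n.p 0) *
          (cβ * ee cα cβ cξ ^ (-n.p 0)) ^ n.p 1 := by
        rw [ψ0_apply, EA_α, DD_α, map_mul, map_zpow, TT_α, TT_β]
      have e3 : η0 n cα = zz (n.q 1 - n.q 0 * n.p 1) := f3_α _ _ _
      rw [e2, e3, f2_true, inv_inv, inv_inv, h.dad, pw_apply]
      simp only [map_mul, map_zpow, f3_ee, f3_α, f3_β]
      have h1 := h.ta
      rw [← conjW1 hya hyb hye] at h1
      have h2 := congrArg (fun g => (ew l ^ n.p 0 * l .y ^ n.q 0) * g *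
        (ew l ^ n.p 0 * l .y ^ n.q 0)⁻¹) h1
      beta_reduce at h2
      have h3 : ∀ W T A : G, W * ((T * W)⁻¹ * A * (T * W)) * W⁻¹ = T⁻¹ * A * T := by
        intro W T A
        group
      have h4 : ∀ W A : G, W * (W⁻¹ * A * W) * W⁻¹ = A := by
        intro W A
        group
      rw [h3, h4] at h2
      exact h2
    · change (l .t)⁻¹ * ((l .d)⁻¹ * j0 l (fr * fk ^ n.p 2) * ((l .d)⁻¹)⁻¹) * ((l .t)⁻¹)⁻¹ =
        k0 l (ψ0 n (Coprod.inl (fr * fk ^ n.p 2))) *
          pw (l .y) (η0 n (Coprod.inl (fr * fk ^ n.p 2)))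
      have e0 : (Coprod.inl (fr * fk ^ n.p 2) : Sg F2) = cβ * cα ^ n.p 2 := by
        rw [map_mul, map_zpow]
      have e2 : ψ0 n (Coprod.inl (fr * fk ^ n.p 2)) = cβ * ee cα cβ cξ ^ (-n.p 0) := by
        rw [e0, ψ0_apply, map_mul, map_zpow, EA_α, EA_β, zpow_neg, inv_mul_cancel_right, DD_β,
          TT_β]
      have e3 : η0 n (Coprod.inl (fr * fk ^ n.p 2)) = zz (n.q 2 - n.q 0) := by
        have h1 : η0 n cα = zz (n.q 1 - n.q 0 * n.p 1) := f3_α _ _ _
        have h2 : η0 n cβ = zz (-n.q 0 + n.q 2 - n.p 2 * (n.q 1 - n.q 0 * n.p 1)) := f3_β _ _ _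
        rw [e0, map_mul, map_zpow, h1, h2, ← ofAdd_zsmul, ← ofAdd_add]
        congr 1
        simp only [smul_eq_mul]
        ring
      rw [e2, e3, inv_inv, inv_inv, map_mul, map_zpow, f2_true, f2_false, pw_apply]
      have hb : Commute (l .b) (l .d) := of_cm h.bd
      have h00 : (l .d)⁻¹ * (l .b * l .a ^ n.p 2) * l .d =
          l .b * (l .a * (uu l ^ n.q 5 * l .b ^ n.p 5)) ^ n.p 2 := by
        rw [← h.dad]
        have h1 : (l .d)⁻¹ * l .a * l .d = (l .d)⁻¹ * l .a * ((l .d)⁻¹)⁻¹ := by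
          rw [inv_inv]
        rw [h1, conj_zpow, inv_inv]
        have hb' : (l .d)⁻¹ * l .b = l .b * (l .d)⁻¹ := (hb.inv_right.eq).symm
        calc (l .d)⁻¹ * (l .b * l .a ^ n.p 2) * l .d
            = ((l .d)⁻¹ * l .b) * l .a ^ n.p 2 * l .d := by group
          _ = _ := by rw [hb']; group
      rw [h00]
      simp only [map_mul, map_zpow, f3_ee, f3_β]
      have h1 := h.tb
      rw [← conjW2 hye] at h1
      have h2 := congrArg (fun g => (ew l ^ n.p 0 * l .y ^ n.q 0) * g *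
        (ew l ^ n.p 0 * l .y ^ n.q 0)⁻¹) h1
      beta_reduce at h2
      have h3 : ∀ W T A : G, W * ((T * W)⁻¹ * A * (T * W)) * W⁻¹ = T⁻¹ * A * T := by
        intro W T A
        group
      have h4 : ∀ W A : G, W * (W⁻¹ * A * W) * W⁻¹ = A := by
        intro W A
        group
      rw [h3, h4] at h2
      exact h2
  have e2 : (l .t)⁻¹ * ((l .d)⁻¹ * j0 l v * ((l .d)⁻¹)⁻¹) * ((l .t)⁻¹)⁻¹ =
      k0 l (ψ0 n (Coprod.inl v)) * pw (l .y) (η0 n (Coprod.inl v)) := DFunLike.congr_fun e1 v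
  rw [inv_inv, inv_inv] at e2
  exact e2

/-- the relations of the explicit group give the relations of the pinwheel -/
theorem Rl.sat (h : Rl n l) : (wheel n).Sat (H0 h) (H1 h) (l .t) where
  r0 := by
    change H0 h (shF (φ0 n) (θ0 n) δδ) = H1 h (shF (φ1 n) (θ1 n) cmF)
    rw [H0_shF, H1_shF, δδ, cmF]
    simp only [map_mul, map_inv, f2_true, f2_false]
    exact h.s1.symm
  rB b := by
    change H0 h (shZ (Coprod.inl b)) = H1 h (shZ b)
    rw [H0_shZ, H1_shZ]
    exact sgLift_inl _ _ _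
  rxy := by
    change H1 h (shF (φ1 n) (θ1 n) fk) * H0 h (shZ cξ) =
      H0 h (shZ cξ) * H1 h (shF (φ1 n) (θ1 n) fk)
    rw [H1_shF, H0_shZ, f2_true, f3_ξ]
    exact of_cm h.xy
  ry := by
    change l .t * H0 h (shZ cξ) = H0 h (shZ (Coprod.inl δδ * xS)) * l .t
    rw [H0_shZ, H0_shZ, inl_δδ_mul, Pool.GSQ.bd]
    simp only [map_mul, map_inv, f3_α, f3_β, f3_ξ]
    have h1 := h.s2
    have h2 : l .t * l .y = cm (l .t) (l .y) * l .y * l .t := by rw [cm]; group
    rw [h2, h1]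
    rfl
  rx := by
    change H1 h (shF (φ1 n) (θ1 n) fk) * l .t = l .t * H1 h (shF (φ1 n) (θ1 n) fk)
    rw [H1_shF, f2_true]
    exact of_cm h.xt
  rA v := by
    have h1 : (wheel n).Ψ (SemidirectProduct.inl (Coprod.inl v)) =
        ⟨ψ0 n (Coprod.inl v), zz (η0 n (Coprod.inl v)).toAdd⟩ := by
      change Ψ0 n ⟨Coprod.inl v, 1⟩ = _
      rw [Ψ0_mk, mul_one]
      rfl
    rw [h1, evN_H]
    have h4 : H0 h ((wheel n).f' v) = (l .d)⁻¹ * j0 l v * l .d := by
      change H0 h ((shZ cβ)⁻¹ * shF (φ0 n) (θ0 n) v * ((shZ cβ)⁻¹)⁻¹) = _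
      rw [inv_inv, map_mul, map_mul, map_inv, H0_shZ, H0_shF, f3_β]
    rw [h4]
    have h5 := h.rA v
    rw [mul_assoc, inv_mul_eq_iff_eq_mul] at h5
    exact h5
  rs := by
    have h1 : (wheel n).Φ (FreeGroup.of true, 1) = (fk * fr ^ n.q 7, zz (n.p 7)) := by
      change Φ0 n (fk, 1) = _
      rw [Φ0_mk, ψ1_apply, mul_one, D2, f2_true, η1, f2_true]
    rw [h1, evM_H]
    change H0 h (shZ cξ) * H1 h (shF (φ1 n) (θ1 n) fr) = H1 h (shF (φ1 n) (θ1 n) fr) * _
    rw [H0_shZ, H1_shF, f3_ξ, f2_false, map_mul, map_zpow, f2_true, f2_false]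
    have h2 := h.sy
    rw [mul_assoc, inv_mul_eq_iff_eq_mul] at h2
    exact h2
  rt := by
    have h1 : (wheel n).Φ (FreeGroup.of false, 1) = (fr, zz 0) := by
      change Φ0 n (fr, 1) = _
      rw [Φ0_mk, ψ1_apply, mul_one, D2, f2_false, η1, f2_false]
      rfl
    have h3 : (wheel n).evN (H0 h) (H1 h) (wheel n).w = ew l ^ n.p 0 * l .y ^ n.q 0 := by
      change (wheel n).evN (H0 h) (H1 h) ⟨ee cα cβ cξ ^ n.p 0, zz (n.q 0)⟩ = _
      rw [evN_H, map_zpow, f3_ee]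
    rw [h1, evM_H, h3]
    change _ * H1 h (shF (φ1 n) (θ1 n) fr) = H1 h (shF (φ1 n) (θ1 n) fr) * _
    rw [H1_shF, f2_false, f2_false, zpow_zero, mul_one]
    have h2 := h.st
    rw [mul_assoc, inv_mul_eq_iff_eq_mul] at h2
    exact h2

/-- homomorphisms out of the pinwheel group of an explicit group -/
def back (h : Rl n l) : PN n →* G := Wheel.lift h.sat

theorem back_lt (h : Rl n l) (g : Gen) : back h (lt n g) = l g := by
  cases g
  · change back h (o0 n (F0 n fk)) = _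
    rw [back, Wheel.lift_of0, H0_shF, f2_true]
  · change back h (o0 n (F0 n fr)) = _
    rw [back, Wheel.lift_of0, H0_shF, f2_false]
  · change back h (o1 n (F1 n fk)) = _
    rw [back, Wheel.lift_of1, H1_shF, f2_true]
  · change back h (o1 n (F1 n fr)) = _
    rw [back, Wheel.lift_of1, H1_shF, f2_false]
  · change back h (o0 n (shZ cα)) = _
    rw [back, Wheel.lift_of0, H0_shZ, f3_α]
  · change back h (o0 n (shZ cβ)) = _
    rw [back, Wheel.lift_of0, H0_shZ, f3_β]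
  · change back h (o0 n (shZ cξ)) = _
    rw [back, Wheel.lift_of0, H0_shZ, f3_ξ]
  · exact Wheel.lift_t _

end

variable (n : Exps)

theorem pn_ext {G : Type*} [Group G] {f g : PN n →* G} (h : ∀ x, f (lt n x) = g (lt n x)) :
    f = g := by
  refine pin_ext (fun z => ?_) (fun z => ?_) (h .t)
  · have h1 : f.comp (o0 n) = g.comp (o0 n) := by
      refine bk_ext (fun z => ?_) (fun w => ?_)
      · have h2 : (f.comp (o0 n)).comp shZ = (g.comp (o0 n)).comp shZ := f3_ext (h .c) (h .d) (h .y)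
        exact DFunLike.congr_fun h2 z
      · have h2 : (f.comp (o0 n)).comp (F0 n) = (g.comp (o0 n)).comp (F0 n) := f2_ext (h .a) (h .b)
        exact DFunLike.congr_fun h2 w
    exact DFunLike.congr_fun h1 z
  · have h1 : f.comp (o1 n) = g.comp (o1 n) := by
      refine bk_ext (fun z => ?_) (fun w => ?_)
      · have h2 : (f.comp (o1 n)).comp shZ = (g.comp (o1 n)).comp shZ := by
          refine f2_ext ?_ ?_
          · have h3 := h .c
            rw [lt_c] at h3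
            exact h3
          · have h3 := h .d
            rw [lt_d] at h3
            exact h3
        exact DFunLike.congr_fun h2 z
      · have h2 : (f.comp (o1 n)).comp (F1 n) = (g.comp (o1 n)).comp (F1 n) := f2_ext (h .x) (h .s)
        exact DFunLike.congr_fun h2 w
    exact DFunLike.congr_fun h1 z

/-- **The explicit group is the pinwheel group.** -/
def iso : PW n ≃* PN n := MonoidHom.toMulEquiv (toPin n) (back (sat_of n).rl)
  (by
    refine PresentedGroup.ext fun g => ?_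
    rw [MonoidHom.comp_apply, toPin_of, back_lt]
    rfl)
  (by
    refine pn_ext n fun g => ?_
    rw [MonoidHom.comp_apply, back_lt, toPin_of]
    rfl)

end Pool.GSQ
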